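import Pool.Agent.H554R2.RK.Par

/-!
# The conjunction of negated one-pass programs and nondeterministic programs
-/

set_option autoImplicit false

open Finset

namespace Pool.Agent.H554R2.RK

open Pool.Agent.H554R2.Sem Pool.Agent.H554R2.Coin Pool.Agent.H554R2.Lin Pool.Agent.H554R2.Rnd
open Pool.Agent.H554R2.Qua

/-- a set on which the sum of the signs of one form is small contains about as many zeros as ones -/
theorem form_balance {n G m : ℕ} (π : Fin m → Fin n → Fin G) (h : Fin m → Fin n → Fin n → Bool)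
    (j : Fin m) (ρ : Finset (Pt n)) (c : ℝ) (hρ : ((|∑ x ∈ ρ, chi π h {j} x| : ℤ) : ℝ) ≤ c) :
    ((ρ.filter (fun x => ¬ qr (π j) (h j) x = true)).card : ℝ) ≤
      ((ρ.filter (fun x => qr (π j) (h j) x = true)).card : ℝ) + c := by
  have h1 : ((∑ x ∈ ρ, chi π h {j} x : ℤ) : ℝ) =
      ((ρ.filter (fun x => ¬ qr (π j) (h j) x = true)).card : ℝ) -
        ((ρ.filter (fun x => qr (π j) (h j) x = true)).card : ℝ) := by
    rw [card_filter, card_filter]
    push_cast
    rw [← sum_sub_distrib]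
    refine sum_congr rfl fun x _ => ?_
    rw [chi, prod_singleton, sgn]
    by_cases ho : qr (π j) (h j) x = true <;> simp [ho]
  rw [Int.cast_abs, h1] at hρ
  have := (abs_le.1 hρ).2
  linarith

/-- Conjunctions of negated one-pass programs and nondeterministic programs. -/
theorem coimmune_final (k E : ℕ) (hE : 0 < E) : ∃ D : ℕ, 0 < D ∧ ∀ n ≥ D,
    ∃ (m : ℕ) (q : Fin m → Pt n → Bool), m ≤ D ∧
    (∀ j, ∃ (U : BP (Fin n) Bool) (l : List (Fin n)), Fintype.card U.State ≤ D * n ∧ l.Nodup ∧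
      ∀ x : Pt n, U.Comp x l (q j x)) ∧
    2 ^ n ≤ 2 ^ D * Nat.card {x : Pt n // ¬ ∃ j, q j x = true} ∧
    ∀ P : NBP (Fin n), ReadK P k → Fintype.card P.State < 2 ^ (n / D) →
      Nat.card {x // Acc P x ∧ ¬ ∃ j, q j x = true} ≤
        2 ^ (n / E) * Nat.card {x // Acc P x ∧ ∃ j, q j x = true} + 2 ^ (n - n / D) := by
  classical
  obtain ⟨Q, c, hQ, hcover⟩ := rect_cover k 1
  obtain ⟨L, W0, hW0, hgroups⟩ := exists_groups (Q + 2) (by omega)
  obtain ⟨W1, hcoefs⟩ := exists_coefs (Q + 2) (L + 1) (by omega)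
  obtain ⟨W, hW⟩ : ∃ W : ℕ, W = W0 + W1 := ⟨_, rfl⟩
  obtain ⟨N1, hN1⟩ := hgroups W (by omega) (L + 1)
  obtain ⟨N2, hN2⟩ := hcoefs W (by omega)
  obtain ⟨N5, hN5⟩ := exp_large 8192 (by norm_num) (2 ^ (L + 1 + 2))
  obtain ⟨C, hC⟩ : ∃ C : ℕ, C = 4 * (L + 1) * 9 ^ W + 1 := ⟨_, rfl⟩
  obtain ⟨M, hM⟩ : ∃ M : ℕ, M = 4 * (c + 1) * (8192 * Q) * E := ⟨_, rfl⟩
  obtain ⟨D, hD⟩ : ∃ D : ℕ, D = N1 + N2 + N5 + (Q + 2) * 4 + M + (L + 2) + (4 * C + 4) :=
    ⟨_, rfl⟩
  refine ⟨D, by omega, fun n hn => ?_⟩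
  have hn0 : 1 ≤ n := by omega
  obtain ⟨π, hπ1, hπ2, hπ3⟩ := hN1 n (by omega)
  obtain ⟨h, hh⟩ := hN2 n (by omega) π
  have hQ2 : ∀ a : ℕ, n ≤ Q * a → n ≤ (Q + 2) * a := fun a ha => ha.trans (by nlinarith)
  have hker : ∀ A B' : Finset (Fin n), Disjoint A B' → n ≤ (Q + 2) * A.card →
      n ≤ (Q + 2) * B'.card → ∀ s : Finset (Fin (L + 1)), ∀ j ∈ s, Bal (π j) A B' →
        (ker (coef π h s) A B').card * 2 ^ (min A.card B'.card / 2048) ≤ 2 ^ B'.card := hh
  have hπ : ∀ j, ∑ g, 2 ^ (univ.filter (fun v => π j v = g)).card ≤ C * n :=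
    fun j => (hπ1 j).trans (Nat.mul_le_mul_right _ (by omega))
  obtain ⟨hA0c, hB0c, hdisj⟩ := halves n hn0
  set A0 : Finset (Fin n) := univ.filter (fun v : Fin n => 2 * v.val < n) with hA0
  set B0 : Finset (Fin n) := univ.filter (fun v : Fin n => ¬ 2 * v.val < n) with hB0
  have hnA : n ≤ (Q + 2) * A0.card := hA0c.trans (Nat.mul_le_mul_right _ (by omega))
  have hnB : n ≤ (Q + 2) * B0.card := by
    have hn12 : 12 ≤ n := by omega
    have hB1 : 1 ≤ B0.card := by omega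
    nlinarith
  have hsmall : ∀ s : Finset (Fin (L + 1)), s.Nonempty →
      (|∑ x : Pt n, chi π h s x| : ℤ) ≤ (2 : ℝ) ^ n / 2 ^ (n / 8192) := by
    intro s hs
    obtain ⟨j, hj⟩ := hs
    exact all_small π h s (hker A0 B0 hdisj hnA hnB s j hj (hπ3 j))
  have h2n : (0 : ℝ) < 2 ^ n := by positivity
  have h2m : (0 : ℝ) < 2 ^ (L + 1) := by positivity
  have hρ : (2 : ℝ) ^ n / 2 ^ (n / 8192) ≤ 1 / 4 * (2 ^ n / 2 ^ (L + 1)) := by
    have h1 : 2 ^ (L + 1 + 2) * (n + 1) ≤ 2 ^ (n / 8192) := hN5 n (by omega)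
    have h2 : 2 ^ (L + 1 + 2) ≤ 2 ^ (n / 8192) := (Nat.le_mul_of_pos_right _ (by omega)).trans h1
    have h3 : (2 : ℝ) ^ (L + 1) * 4 ≤ 2 ^ (n / 8192) := by
      have : ((2 ^ (L + 1 + 2) : ℕ) : ℝ) ≤ ((2 ^ (n / 8192) : ℕ) : ℝ) := by exact_mod_cast h2
      push_cast at this
      rw [pow_add] at this
      linarith
    have h4 : (0 : ℝ) < 2 ^ (n / 8192) := by positivity
    have h5 : 1 / 4 * ((2 : ℝ) ^ n / 2 ^ (L + 1)) = 2 ^ n / (2 ^ (L + 1) * 4) := by ring
    rw [h5, div_le_div_iff₀ h4 (by positivity)]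
    exact mul_le_mul_of_nonneg_left h3 h2n.le
  -- exponents
  obtain ⟨d, hd⟩ : ∃ d : ℕ, d = n / D := ⟨_, rfl⟩
  obtain ⟨δ, hδ⟩ : ∃ δ : ℕ, δ = n / (8192 * Q) := ⟨_, rfl⟩
  have hMd : M * d ≤ n := by
    calc M * d ≤ D * d := Nat.mul_le_mul_right _ (by omega)
      _ ≤ n := by rw [hd]; exact Nat.mul_div_le n D
  have hMn : M ≤ n := by omega
  have hexpE : c * d + c ≤ n / E := by
    rw [Nat.le_div_iff_mul_le hE]
    have h1 : 2 * (c * d * E) ≤ M * d := by
      rw [hM]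
      have h2 : 2 * c ≤ 4 * (c + 1) * (8192 * Q) := by nlinarith
      calc 2 * (c * d * E) = 2 * c * (E * d) := by ring
        _ ≤ 4 * (c + 1) * (8192 * Q) * (E * d) := Nat.mul_le_mul_right _ h2
        _ = _ := by ring
    have h3 : 2 * (c * E) ≤ M := by
      rw [hM]
      have h2 : 2 * c ≤ 4 * (c + 1) * (8192 * Q) := by nlinarith
      calc 2 * (c * E) = 2 * c * E := by ring
        _ ≤ _ := Nat.mul_le_mul_right _ h2
    have h4 : (c * d + c) * E = c * d * E + c * E := by ring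
    omega
  have hexpδ : c * d + c + d ≤ δ := by
    rw [hδ, Nat.le_div_iff_mul_le (by omega)]
    have h1 : 2 * ((c + 1) * d * (8192 * Q)) ≤ M * d := by
      rw [hM]
      have h2 : 2 * ((c + 1) * (8192 * Q)) ≤ 4 * (c + 1) * (8192 * Q) * E := by
        have h3 : 2 * ((c + 1) * (8192 * Q)) * 1 ≤ 4 * ((c + 1) * (8192 * Q)) * E :=
          Nat.mul_le_mul (by omega) hE
        calc 2 * ((c + 1) * (8192 * Q)) = 2 * ((c + 1) * (8192 * Q)) * 1 := by ring
          _ ≤ 4 * ((c + 1) * (8192 * Q)) * E := h3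
          _ = _ := by ring
      calc 2 * ((c + 1) * d * (8192 * Q)) = 2 * ((c + 1) * (8192 * Q)) * d := by ring
        _ ≤ _ := Nat.mul_le_mul_right _ h2
    have h3 : 2 * (c * (8192 * Q)) ≤ M := by
      rw [hM]
      have h4 : 2 * (c * (8192 * Q)) * 1 ≤ 4 * ((c + 1) * (8192 * Q)) * E := by
        apply Nat.mul_le_mul _ hE
        nlinarith
      calc 2 * (c * (8192 * Q)) = 2 * (c * (8192 * Q)) * 1 := by ring
        _ ≤ 4 * ((c + 1) * (8192 * Q)) * E := h4
        _ = _ := by ring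
    have h4 : (c * d + c + d) * (8192 * Q) = (c + 1) * d * (8192 * Q) + c * (8192 * Q) := by ring
    omega
  refine ⟨L + 1, fun j => qr (π j) (h j), by omega, fun j => ?_, ?_, ?_⟩
  · obtain ⟨U, l, hU1, hl, hU2⟩ := qr_program (π j) (h j)
    refine ⟨U, l, hU1.trans ?_, hl, hU2⟩
    calc 4 * ∑ g, 2 ^ (univ.filter (fun v => π j v = g)).card + 4 ≤ 4 * (C * n) + 4 := by
          have := Nat.mul_le_mul_left 4 (hπ j)
          omega
      _ ≤ (4 * C + 4) * n := by nlinarith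
      _ ≤ D * n := Nat.mul_le_mul_right _ (by omega)
  · -- density
    have h1 := pat_card π h ((2 : ℝ) ^ n / 2 ^ (n / 8192)) (by positivity) hsmall (fun _ => false)
    have h3 : (Pat π h (fun _ => false)).card =
        Nat.card {x : Pt n // ¬ ∃ j, qr (π j) (h j) x = true} := by
      rw [Nat.card_eq_fintype_card, Fintype.card_subtype]
      congr 1
      ext x
      simp [Pat]
    rw [← h3]
    have h4 : (2 : ℝ) ^ n ≤ 2 ^ (L + 2) * ((Pat π h (fun _ => false)).card : ℝ) := by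
      have h5 : 1 / 2 * ((2 : ℝ) ^ n / 2 ^ (L + 1)) ≤ ((Pat π h (fun _ => false)).card : ℝ) := by
        have h6 : (0 : ℝ) < 2 ^ n / 2 ^ (L + 1) := by positivity
        linarith
      have h6 : (2 : ℝ) ^ (L + 2) = 2 ^ (L + 1) * 2 := by rw [pow_succ]
      calc (2 : ℝ) ^ n = 2 ^ (L + 2) * (1 / 2 * ((2 : ℝ) ^ n / 2 ^ (L + 1))) := by
            rw [h6]; field_simp
        _ ≤ _ := mul_le_mul_of_nonneg_left h5 (by positivity)
    have h5 : (2 : ℝ) ^ n ≤ 2 ^ D * ((Pat π h (fun _ => false)).card : ℝ) := by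
      refine h4.trans (mul_le_mul_of_nonneg_right ?_ (Nat.cast_nonneg _))
      exact pow_le_pow_right₀ (by norm_num) (by omega)
    exact_mod_cast h5
  · intro P hPk hPc
    obtain ⟨m', ρ, hm', hρ1, hρ2⟩ := hcover n (by omega) (fun _ => P) (fun _ => hPk) (2 ^ d)
      (fun _ => by rw [hd]; exact hPc.le) univ
    have hρ1' : ∀ x, Acc P x ↔ ∃ j, x ∈ ρ j := fun x => by
      rw [← hρ1 x]
      exact ⟨fun h1 _ _ => h1, fun h1 => h1 0 (mem_univ _)⟩
    have hrect : ∀ j, ∃ i, ((|∑ x ∈ ρ j, chi π h {i} x| : ℤ) : ℝ) ≤ 2 ^ n / 2 ^ δ := by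
      intro j
      obtain ⟨A, B, hAB, hA, hB, φ, ψ, hφ, hψ, hρφ⟩ := hρ2 j
      obtain ⟨i, hi⟩ : ∃ i, Bal (π i) A B := by
        by_contra hcon
        push Not at hcon
        have h1 := hπ2 A B (hQ2 _ hA) (hQ2 _ hB)
        rw [Nat.card_eq_fintype_card, Fintype.card_subtype,
          Finset.filter_true_of_mem (fun i _ => hcon i), card_univ, Fintype.card_fin] at h1
        omega
      have h1 := rect_chi hQ (ρ j) A B hAB hA hB φ ψ hφ hψ hρφ π h {i}
        (hker A B hAB (hQ2 _ hA) (hQ2 _ hB) {i} i (mem_singleton_self _) hi)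
      refine ⟨i, ?_⟩
      rw [le_div_iff₀ (by positivity), hδ]
      exact h1
    set f : Pt n → Prop := fun x => ∃ j, qr (π j) (h j) x = true with hf
    obtain ⟨g1, hg1⟩ : ∃ g1 : ℕ, g1 = (univ.filter (fun x => Acc P x ∧ f x)).card := ⟨_, rfl⟩
    have hgood : ∀ j, (((ρ j).filter (fun x => ¬ f x)).card : ℝ) ≤ g1 + 2 ^ n / 2 ^ δ := by
      intro j
      obtain ⟨i, hi⟩ := hrect j
      have h1 := form_balance π h i (ρ j) _ hi
      have h2 : (((ρ j).filter (fun x => qr (π i) (h i) x = true)).card : ℝ) ≤ g1 := by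
        have h3 : ((ρ j).filter (fun x => qr (π i) (h i) x = true)).card ≤ g1 := by
          rw [hg1]
          apply card_le_card
          intro x hx
          rw [mem_filter] at hx ⊢
          exact ⟨mem_univ _, (hρ1' x).2 ⟨j, hx.1⟩, i, hx.2⟩
        exact_mod_cast h3
      have h3 : (((ρ j).filter (fun x => ¬ f x)).card : ℝ) ≤
          (((ρ j).filter (fun x => ¬ qr (π i) (h i) x = true)).card : ℝ) := by
        have h4 : ((ρ j).filter (fun x => ¬ f x)).card ≤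
            ((ρ j).filter (fun x => ¬ qr (π i) (h i) x = true)).card := by
          apply card_le_card
          intro x hx
          rw [mem_filter] at hx ⊢
          exact ⟨hx.1, fun h5 => hx.2 ⟨i, h5⟩⟩
        exact_mod_cast h4
      linarith
    have hcov : univ.filter (fun x => Acc P x ∧ ¬ f x) ⊆
        univ.biUnion (fun j => (ρ j).filter (fun x => ¬ f x)) := by
      intro x hx
      rw [mem_filter] at hx
      obtain ⟨j, hj⟩ := (hρ1' x).1 hx.2.1
      rw [mem_biUnion]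
      exact ⟨j, mem_univ _, mem_filter.2 ⟨hj, hx.2.2⟩⟩
    have hm2 : (m' : ℝ) ≤ 2 ^ (c * d + c) := by
      have h3 : m' ≤ (2 ^ d + 1) ^ c := hm'
      have h4 : (2 ^ d + 1) ^ c ≤ 2 ^ (c * d + c) := by
        calc (2 ^ d + 1) ^ c ≤ (2 ^ (d + 1)) ^ c := by
              apply Nat.pow_le_pow_left
              have := Nat.one_le_two_pow (n := d)
              rw [pow_succ]
              omega
          _ = 2 ^ (c * d + c) := by
              rw [← pow_mul]
              congr 1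
              ring
      exact_mod_cast h3.trans h4
    have hmain : ((univ.filter (fun x => Acc P x ∧ ¬ f x)).card : ℝ) ≤
        2 ^ (n / E) * g1 + 2 ^ (n - n / D) := by
      have h1 : ((univ.filter (fun x => Acc P x ∧ ¬ f x)).card : ℝ) ≤
          ∑ j : Fin m', (((ρ j).filter (fun x => ¬ f x)).card : ℝ) := by
        have h2 := (card_le_card hcov).trans card_biUnion_le
        exact_mod_cast h2
      have h2 : ∑ j : Fin m', (((ρ j).filter (fun x => ¬ f x)).card : ℝ) ≤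
          m' * (g1 + 2 ^ n / 2 ^ δ) := by
        refine (Finset.sum_le_sum fun j _ => hgood j).trans ?_
        rw [Finset.sum_const, nsmul_eq_mul, Finset.card_univ, Fintype.card_fin]
      have h3 : (m' : ℝ) * (g1 + 2 ^ n / 2 ^ δ) ≤
          2 ^ (c * d + c) * (g1 + 2 ^ n / 2 ^ δ) :=
        mul_le_mul_of_nonneg_right hm2 (by positivity)
      have h4 : (2 : ℝ) ^ (c * d + c) * g1 ≤ 2 ^ (n / E) * g1 := by
        apply mul_le_mul_of_nonneg_right _ (Nat.cast_nonneg _)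
        exact pow_le_pow_right₀ (by norm_num) hexpE
      have h5 : (2 : ℝ) ^ (c * d + c) * (2 ^ n / 2 ^ δ) ≤ 2 ^ (n - n / D) := by
        rw [mul_div_assoc', div_le_iff₀ (by positivity), ← pow_add, ← pow_add]
        apply pow_le_pow_right₀ (by norm_num)
        rw [← hd]
        have hdn : d ≤ n := by rw [hd]; exact Nat.div_le_self _ _
        omega
      calc ((univ.filter (fun x => Acc P x ∧ ¬ f x)).card : ℝ) ≤
            (2 : ℝ) ^ (c * d + c) * ((g1 : ℝ) + 2 ^ n / 2 ^ δ) := h1.trans (h2.trans h3)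
        _ = (2 : ℝ) ^ (c * d + c) * g1 + 2 ^ (c * d + c) * (2 ^ n / 2 ^ δ) := by ring
        _ ≤ _ := add_le_add h4 h5
    rw [Nat.card_eq_fintype_card, Fintype.card_subtype, Nat.card_eq_fintype_card,
      Fintype.card_subtype]
    rw [hg1] at hmain
    exact_mod_cast hmain

end Pool.Agent.H554R2.RK
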