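import Pool.Agent.H554R2.RK.ParDefs

/-!
# Sequential composition of two deterministic programs
-/

set_option autoImplicit false

open Finset

namespace Pool.Agent.H554R2.RK

open Pool.Agent.H554R2.Sem

/-- from the first program to the second -/
def SEQ_lift {S T : Type} (t : T) : Option S → Option (S ⊕ T)
  | none => some (Sum.inr t)
  | some q => some (Sum.inl q)

/-- first `P`, then `P'` -/
def SEQ {n : ℕ} (P P' : NBP (Fin n)) : NBP (Fin n) where
  State := P.State ⊕ P'.State
  start := Sum.inl P.start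
  query := Sum.elim P.query P'.query
  edge := fun s b w => match s with
    | Sum.inl q => ∃ w', P.edge q b w' ∧ w = SEQ_lift P'.start w'
    | Sum.inr q => ∃ w', P'.edge q b w' ∧ w = w'.map Sum.inr

theorem SEQ_step_inl {n : ℕ} (P P' : NBP (Fin n)) (x : Pt n) (q : P.State)
    (w : Option (P.State ⊕ P'.State)) :
    (SEQ P P').Step x (Sum.inl q) w ↔ ∃ w', P.Step x q w' ∧ w = SEQ_lift P'.start w' := by
  have h1 : (SEQ P P').query (Sum.inl q) = P.query q := rfl
  unfold NBP.Step
  rw [h1]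
  cases P.query q with
  | none =>
    constructor
    · rintro ⟨b, w', h2, h3⟩
      exact ⟨w', ⟨b, h2⟩, h3⟩
    · rintro ⟨w', ⟨b, h2⟩, h3⟩
      exact ⟨b, w', h2, h3⟩
  | some v => exact Iff.rfl

theorem SEQ_step_inr {n : ℕ} (P P' : NBP (Fin n)) (x : Pt n) (q : P'.State)
    (w : Option (P.State ⊕ P'.State)) :
    (SEQ P P').Step x (Sum.inr q) w ↔ ∃ w', P'.Step x q w' ∧ w = w'.map Sum.inr := by
  have h1 : (SEQ P P').query (Sum.inr q) = P'.query q := rfl
  unfold NBP.Step
  rw [h1]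
  cases P'.query q with
  | none =>
    constructor
    · rintro ⟨b, w', h2, h3⟩
      exact ⟨w', ⟨b, h2⟩, h3⟩
    · rintro ⟨w', ⟨b, h2⟩, h3⟩
      exact ⟨b, w', h2, h3⟩
  | some v => exact Iff.rfl

theorem SEQ_determ {n : ℕ} (P P' : NBP (Fin n)) (hD : Determ P) (hD' : Determ P') :
    Determ (SEQ P P') := by
  intro x q w w' h h'
  cases q with
  | inl q =>
    obtain ⟨u, hu, rfl⟩ := (SEQ_step_inl P P' x q w).1 h
    obtain ⟨u', hu', rfl⟩ := (SEQ_step_inl P P' x q w').1 h'
    rw [hD x q u u' hu hu']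
  | inr q =>
    obtain ⟨u, hu, rfl⟩ := (SEQ_step_inr P P' x q w).1 h
    obtain ⟨u', hu', rfl⟩ := (SEQ_step_inr P P' x q w').1 h'
    rw [hD' x q u u' hu hu']

theorem SEQ_path_inr {n : ℕ} (P P' : NBP (Fin n)) (t : Option (P.State ⊕ P'.State)) :
    ∀ (l : List (P.State ⊕ P'.State)) (q : P'.State), Path (SEQ P P') l t →
      hd l t = some (Sum.inr q) →
      ∃ (l2 : List P'.State) (t2 : Option P'.State), l = l2.map Sum.inr ∧ Path P' l2 t2 ∧
        hd l2 t2 = some q := by
  intro l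
  induction l with
  | nil => intro q _ h; exact ⟨[], some q, rfl, trivial, rfl⟩
  | cons s l ih =>
    intro q h1 h2
    have h3 : s = Sum.inr q := Option.some.inj h2
    subst h3
    obtain ⟨⟨b, w', h4, h5⟩, h6⟩ := h1
    cases w' with
    | none =>
      have h7 : hd l t = none := h5
      cases l with
      | nil => exact ⟨[q], none, rfl, ⟨⟨b, h4⟩, trivial⟩, rfl⟩
      | cons a l => exact absurd h7 (by simp [hd])
    | some q' =>
      obtain ⟨l2, t2, h7, h8, h9⟩ := ih q' h6 h5
      refine ⟨q :: l2, t2, by rw [h7]; rfl, ⟨⟨b, ?_⟩, h8⟩, rfl⟩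
      rw [h9]
      exact h4

theorem SEQ_path_inl {n : ℕ} (P P' : NBP (Fin n)) (t : Option (P.State ⊕ P'.State)) :
    ∀ (l : List (P.State ⊕ P'.State)) (q : P.State), Path (SEQ P P') l t →
      hd l t = some (Sum.inl q) →
      ∃ (l1 : List P.State) (t1 : Option P.State) (l2 : List P'.State) (t2 : Option P'.State),
        l = l1.map Sum.inl ++ l2.map Sum.inr ∧ Path P l1 t1 ∧ hd l1 t1 = some q ∧
        Path P' l2 t2 ∧ hd l2 t2 = some P'.start := by
  intro l
  induction l with
  | nil =>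
    intro q _ h
    exact ⟨[], some q, [], some P'.start, rfl, trivial, rfl, trivial, rfl⟩
  | cons s l ih =>
    intro q h1 h2
    have h3 : s = Sum.inl q := Option.some.inj h2
    subst h3
    obtain ⟨⟨b, w', h4, h5⟩, h6⟩ := h1
    cases w' with
    | none =>
      obtain ⟨l2, t2, h7, h8, h9⟩ := SEQ_path_inr P P' t l P'.start h6 h5
      exact ⟨[q], none, l2, t2, by rw [h7]; rfl, ⟨⟨b, h4⟩, trivial⟩, rfl, h8, h9⟩
    | some q' =>
      obtain ⟨l1, t1, l2, t2, h7, h8, h9, h10, h11⟩ := ih q' h6 h5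
      refine ⟨q :: l1, t1, l2, t2, by rw [h7]; rfl, ⟨⟨b, ?_⟩, h8⟩, rfl, h10, h11⟩
      rw [h9]
      exact h4

theorem SEQ_readK {n : ℕ} (k : ℕ) (P P' : NBP (Fin n)) (hP : ReadK P k) (hP' : ReadK P' k) :
    ReadK (SEQ P P') (2 * k) := by
  intro l t h1 h2 v
  obtain ⟨l1, t1, l2, t2, h7, h8, h9, h10, h11⟩ := SEQ_path_inl P P' t l P.start h2 h1
  have a1 := hP l1 t1 h9 h8 v
  have a2 := hP' l2 t2 h11 h10 v
  have e0 : (l1.map Sum.inl ++ l2.map Sum.inr : List (P.State ⊕ P'.State)).map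
      (Sum.elim P.query P'.query) = l1.map P.query ++ l2.map P'.query := by
    rw [List.map_append, List.map_map, List.map_map]
    rfl
  have e : l.map (SEQ P P').query = l1.map P.query ++ l2.map P'.query :=
    (congrArg (List.map (SEQ P P').query) h7).trans e0
  rw [e, List.count_append]
  omega

theorem SEQ_run_inr {n : ℕ} (P P' : NBP (Fin n)) (x : Pt n) :
    ∀ (l : List (P.State ⊕ P'.State)) (q : P'.State), (SEQ P P').Run x l none →
      hd l none = some (Sum.inr q) → ∃ l2 : List P'.State, hd l2 none = some q ∧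
        P'.Run x l2 none := by
  intro l
  induction l with
  | nil => intro q _ h; exact absurd h (by simp [hd])
  | cons s l ih =>
    intro q h1 h2
    have h3 : s = Sum.inr q := Option.some.inj h2
    subst h3
    obtain ⟨w', h4, h5⟩ := (SEQ_step_inr P P' x q _).1 h1.1
    cases w' with
    | none => exact ⟨[q], rfl, h4, trivial⟩
    | some q' =>
      obtain ⟨l2, h7, h8⟩ := ih q' h1.2 h5
      refine ⟨q :: l2, rfl, ?_, h8⟩
      rw [h7]
      exact h4

theorem SEQ_run_inl {n : ℕ} (P P' : NBP (Fin n)) (x : Pt n) :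
    ∀ (l : List (P.State ⊕ P'.State)) (q : P.State), (SEQ P P').Run x l none →
      hd l none = some (Sum.inl q) → (∃ l1 : List P.State, hd l1 none = some q ∧
        P.Run x l1 none) ∧ Acc P' x := by
  intro l
  induction l with
  | nil => intro q _ h; exact absurd h (by simp [hd])
  | cons s l ih =>
    intro q h1 h2
    have h3 : s = Sum.inl q := Option.some.inj h2
    subst h3
    obtain ⟨w', h4, h5⟩ := (SEQ_step_inl P P' x q _).1 h1.1
    cases w' with
    | none =>
      obtain ⟨l2, h7, h8⟩ := SEQ_run_inr P P' x l P'.start h1.2 h5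
      exact ⟨⟨[q], rfl, h4, trivial⟩, l2, h7, h8⟩
    | some q' =>
      obtain ⟨⟨l1, h7, h8⟩, h9⟩ := ih q' h1.2 h5
      refine ⟨⟨q :: l1, rfl, ?_, h8⟩, h9⟩
      rw [h7]
      exact h4

theorem SEQ_hd_inr {n : ℕ} (P P' : NBP (Fin n)) (l2 : List P'.State) :
    hd (l2.map Sum.inr : List (P.State ⊕ P'.State)) none = (hd l2 none).map Sum.inr := by
  cases l2 <;> rfl

theorem SEQ_runs_inr {n : ℕ} (P P' : NBP (Fin n)) (x : Pt n) (l2 : List P'.State)
    (h : P'.Run x l2 none) : (SEQ P P').Run x (l2.map Sum.inr) none := by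
  induction l2 with
  | nil => trivial
  | cons q l ih =>
    refine ⟨(SEQ_step_inr P P' x q _).2 ⟨hd l none, h.1, ?_⟩, ih h.2⟩
    exact SEQ_hd_inr P P' l

theorem SEQ_hd_inl {n : ℕ} (P P' : NBP (Fin n)) (l1 : List P.State) (l2 : List P'.State)
    (h2 : hd l2 none = some P'.start) :
    hd (l1.map Sum.inl ++ l2.map Sum.inr : List (P.State ⊕ P'.State)) none =
      SEQ_lift P'.start (hd l1 none) := by
  cases l1 with
  | nil =>
    have h3 := SEQ_hd_inr P P' l2
    rw [h2] at h3
    exact h3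
  | cons a l => rfl

theorem SEQ_runs_inl {n : ℕ} (P P' : NBP (Fin n)) (x : Pt n) (l1 : List P.State)
    (l2 : List P'.State) (h1 : P.Run x l1 none) (h2 : P'.Run x l2 none)
    (h3 : hd l2 none = some P'.start) :
    (SEQ P P').Run x (l1.map Sum.inl ++ l2.map Sum.inr) none := by
  induction l1 with
  | nil => exact SEQ_runs_inr P P' x l2 h2
  | cons q l ih =>
    refine ⟨(SEQ_step_inl P P' x q _).2 ⟨hd l none, h1.1, ?_⟩, ih h1.2⟩
    exact SEQ_hd_inl P P' l l2 h3

/-- sequential composition of two deterministic read-`k`-times programs -/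
theorem seq_prog {n : ℕ} (k : ℕ) (P P' : NBP (Fin n)) (hP : ReadK P k) (hP' : ReadK P' k)
    (hD : Determ P) (hD' : Determ P') :
    ∃ R : NBP (Fin n), ReadK R (2 * k) ∧ Determ R ∧
      Fintype.card R.State = Fintype.card P.State + Fintype.card P'.State ∧
      ∀ x, Acc R x ↔ Acc P x ∧ Acc P' x := by
  refine ⟨SEQ P P', SEQ_readK k P P' hP hP', SEQ_determ P P' hD hD', ?_, fun x => ?_⟩
  · have h := Fintype.card_sum (α := P.State) (β := P'.State)
    rw [← h]
    exact Fintype.card_congr (Equiv.refl _)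
  · constructor
    · rintro ⟨l, h1, h2⟩
      exact SEQ_run_inl P P' x l P.start h2 h1
    · rintro ⟨⟨l1, h1, h2⟩, l2, h3, h4⟩
      refine ⟨l1.map Sum.inl ++ l2.map Sum.inr, ?_, SEQ_runs_inl P P' x l1 l2 h2 h4 h3⟩
      have h5 := SEQ_hd_inl P P' l1 l2 h3
      rw [h1] at h5
      exact h5

end Pool.Agent.H554R2.RK
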