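import Pool.Agent.H554R2.RK.SigmaTwo
import Pool.Agent.H554R2.RK.Seq

/-!
# A disjunction of one-pass programs against exact counting
-/

set_option autoImplicit false

open Finset

namespace Pool.Agent.H554R2.RK

open Pool.Agent.H554R2.Sem Pool.Agent.H554R2.Coin Pool.Agent.H554R2.Lin Pool.Agent.H554R2.Rnd
open Pool.Agent.H554R2.Qua

theorem sq_bound {n : ℕ} {Ω : Type} [Fintype Ω] (A : Ω → Pt n → Prop)
    [∀ ω x, Decidable (A ω x)] (χ : Pt n → ℝ) (t c : ℝ) (ht : 0 ≤ t)
    (h2 : ∀ ω ω', |∑ x ∈ univ.filter (fun x => A ω x ∧ A ω' x), χ x| ≤ c)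
    (h1 : ∀ ω, |∑ x ∈ univ.filter (fun x => A ω x), χ x| ≤ c)
    (h0 : |∑ x, χ x| ≤ c) :
    |∑ x, (((univ.filter (fun ω => A ω x)).card : ℝ) - t) ^ 2 * χ x| ≤
      ((Fintype.card Ω : ℝ) + t) ^ 2 * c := by
  have e0 : ∀ x : Pt n, ((univ.filter (fun ω => A ω x)).card : ℝ) =
      ∑ ω : Ω, (if A ω x then (1 : ℝ) else 0) := by
    intro x
    rw [Finset.sum_boole]
  have e2 : ∑ x, ((univ.filter (fun ω => A ω x)).card : ℝ) ^ 2 * χ x =
      ∑ ω : Ω, ∑ ω' : Ω, ∑ x ∈ univ.filter (fun x => A ω x ∧ A ω' x), χ x := by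
    have h3 : ∀ x : Pt n, ((univ.filter (fun ω => A ω x)).card : ℝ) ^ 2 * χ x =
        ∑ ω : Ω, ∑ ω' : Ω, if A ω x ∧ A ω' x then χ x else 0 := by
      intro x
      rw [e0, sq, Finset.sum_mul_sum, Finset.sum_mul]
      refine Finset.sum_congr rfl fun ω _ => ?_
      rw [Finset.sum_mul]
      refine Finset.sum_congr rfl fun ω' _ => ?_
      by_cases h4 : A ω x <;> by_cases h5 : A ω' x <;> simp [h4, h5]
    simp_rw [h3]
    rw [Finset.sum_comm]
    refine Finset.sum_congr rfl fun ω _ => ?_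
    rw [Finset.sum_comm]
    refine Finset.sum_congr rfl fun ω' _ => ?_
    rw [Finset.sum_filter]
  have e1 : ∑ x, ((univ.filter (fun ω => A ω x)).card : ℝ) * χ x =
      ∑ ω : Ω, ∑ x ∈ univ.filter (fun x => A ω x), χ x := by
    have h3 : ∀ x : Pt n, ((univ.filter (fun ω => A ω x)).card : ℝ) * χ x =
        ∑ ω : Ω, if A ω x then χ x else 0 := by
      intro x
      rw [e0, Finset.sum_mul]
      refine Finset.sum_congr rfl fun ω _ => ?_
      by_cases h4 : A ω x <;> simp [h4]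
    simp_rw [h3]
    rw [Finset.sum_comm]
    refine Finset.sum_congr rfl fun ω _ => ?_
    rw [Finset.sum_filter]
  have e3 : ∑ x, (((univ.filter (fun ω => A ω x)).card : ℝ) - t) ^ 2 * χ x =
      ∑ ω : Ω, ∑ ω' : Ω, ∑ x ∈ univ.filter (fun x => A ω x ∧ A ω' x), χ x -
        2 * t * ∑ ω : Ω, ∑ x ∈ univ.filter (fun x => A ω x), χ x + t ^ 2 * ∑ x, χ x := by
    rw [← e2, ← e1, mul_sum, mul_sum, ← sum_sub_distrib, ← sum_add_distrib]
    refine sum_congr rfl fun x _ => ?_
    ring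
  have b2 : |∑ ω : Ω, ∑ ω' : Ω, ∑ x ∈ univ.filter (fun x => A ω x ∧ A ω' x), χ x| ≤
      (Fintype.card Ω : ℝ) ^ 2 * c := by
    refine (Finset.abs_sum_le_sum_abs _ _).trans ?_
    calc _ ≤ ∑ _ω : Ω, (Fintype.card Ω : ℝ) * c := by
          refine Finset.sum_le_sum fun ω _ => ?_
          refine (Finset.abs_sum_le_sum_abs _ _).trans ?_
          refine (Finset.sum_le_sum fun ω' _ => h2 ω ω').trans ?_
          rw [Finset.sum_const, nsmul_eq_mul, card_univ]
      _ = (Fintype.card Ω : ℝ) ^ 2 * c := by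
          rw [Finset.sum_const, nsmul_eq_mul, card_univ]
          ring
  have b1 : |∑ ω : Ω, ∑ x ∈ univ.filter (fun x => A ω x), χ x| ≤ (Fintype.card Ω : ℝ) * c := by
    refine (Finset.abs_sum_le_sum_abs _ _).trans ?_
    refine (Finset.sum_le_sum fun ω _ => h1 ω).trans ?_
    rw [Finset.sum_const, nsmul_eq_mul, card_univ]
  rw [e3]
  have a2 := abs_le.1 b2
  have a1 := abs_le.1 b1
  have a0 := abs_le.1 h0
  have ht2 : 0 ≤ t ^ 2 := sq_nonneg t
  have g1 : 2 * t * |∑ ω : Ω, ∑ x ∈ univ.filter (fun x => A ω x), χ x| ≤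
      2 * t * ((Fintype.card Ω : ℝ) * c) := mul_le_mul_of_nonneg_left b1 (by linarith)
  have g0 : t ^ 2 * |∑ x, χ x| ≤ t ^ 2 * c := mul_le_mul_of_nonneg_left h0 ht2
  calc _ ≤ |∑ ω : Ω, ∑ ω' : Ω, ∑ x ∈ univ.filter (fun x => A ω x ∧ A ω' x), χ x| +
        2 * t * |∑ ω : Ω, ∑ x ∈ univ.filter (fun x => A ω x), χ x| + t ^ 2 * |∑ x, χ x| := by
        refine (abs_add_le _ _).trans ?_
        rw [abs_mul (t ^ 2), abs_of_nonneg ht2]
        refine add_le_add_left ?_ _ |>.trans le_rfl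
        refine (abs_sub _ _).trans ?_
        rw [abs_mul (2 * t), abs_of_nonneg (by linarith : 0 ≤ 2 * t)]
    _ ≤ (Fintype.card Ω : ℝ) ^ 2 * c + 2 * t * ((Fintype.card Ω : ℝ) * c) + t ^ 2 * c := by
        linarith
    _ = _ := by ring

/-- A disjunction of one-pass programs and exact counting. -/
theorem exact_final (k : ℕ) : ∃ D : ℕ, 0 < D ∧ ∀ n ≥ D, ∃ (m : ℕ) (q : Fin m → Pt n → Bool),
    m ≤ D ∧
    (∀ j, ∃ (U : BP (Fin n) Bool) (l : List (Fin n)), Fintype.card U.State ≤ D * n ∧ l.Nodup ∧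
      ∀ x : Pt n, U.Comp x l (q j x)) ∧
    ∀ (Ω : Type) [Fintype Ω] (P : Ω → NBP (Fin n)), (∀ ω, ReadK (P ω) k) →
      (∀ ω, Determ (P ω)) → (∀ ω, Fintype.card (P ω).State < 2 ^ (n / D)) →
        Nat.card Ω < 2 ^ (n / D) → ∀ t : ℕ,
          ∃ x, ¬ (Nat.card {ω // Acc (P ω) x} = t ↔ ∃ j, q j x = true) := by
  classical
  obtain ⟨L, hL⟩ := rk_gen (2 * k)
  obtain ⟨C, N, hC, hN, hmain⟩ := hL (L + 1)
  obtain ⟨D, hD⟩ : ∃ D : ℕ, D = 2 * N + (L + 1) + (4 * C + 4) := ⟨_, rfl⟩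
  refine ⟨D, by omega, fun n hn => ?_⟩
  have hn0 : 1 ≤ n := by omega
  obtain ⟨G, π, h, hπ, hall, hcorr⟩ := hmain n (by omega)
  have h2N : 1 ≤ n / (2 * N) := by
    rw [Nat.le_div_iff_mul_le (by omega)]
    omega
  have h2N' : 2 * (n / (2 * N)) ≤ n / N := by
    rw [Nat.le_div_iff_mul_le hN]
    calc 2 * (n / (2 * N)) * N = 2 * N * (n / (2 * N)) := by ring
      _ ≤ n := Nat.mul_div_le n (2 * N)
  have hDN : n / D ≤ n / (2 * N) := Nat.div_le_div_left (by omega) (by omega)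
  refine ⟨L + 1, fun j => qr (π j) (h j), by omega, fun j => ?_, ?_⟩
  · obtain ⟨U, l, hU1, hl, hU2⟩ := qr_program (π j) (h j)
    refine ⟨U, l, hU1.trans ?_, hl, hU2⟩
    calc 4 * ∑ g, 2 ^ (univ.filter (fun v => π j v = g)).card + 4 ≤ 4 * (C * n) + 4 := by
          have := Nat.mul_le_mul_left 4 (hπ j)
          omega
      _ ≤ (4 * C + 4) * n := by nlinarith
      _ ≤ D * n := Nat.mul_le_mul_right _ (by omega)
  · intro Ω _ P hPk hPD hP hΩ t
    by_contra hcon
    push Not at hcon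
    obtain ⟨X, hX⟩ : ∃ X : ℝ, X = 2 ^ (n / N) := ⟨_, rfl⟩
    have hX1 : 1 ≤ X := by rw [hX]; exact one_le_pow₀ (by norm_num)
    obtain ⟨V, hV⟩ : ∃ V : ℝ, V = 2 ^ n / 2 ^ (L + 1) := ⟨_, rfl⟩
    have hV0 : 0 < V := by rw [hV]; positivity
    rw [← hX, ← hV] at hall
    have hdiv : ∀ a : ℝ, X * a ≤ V / 16 → a ≤ V / 16 / X := fun a ha => by
      rw [le_div_iff₀ (by linarith)]
      linarith
    have hc0 : 0 ≤ V / 16 / X := by positivity
    have hXc : X * (V / 16 / X) = V / 16 := by field_simp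
    have hcV : V / 16 / X ≤ V / 16 := div_le_self (by positivity) hX1
    have hall' : ∀ s : Finset (Fin (L + 1)), s.Nonempty →
        (|∑ x : Pt n, chi π h s x| : ℤ) ≤ V / 16 / X := fun s hs => hdiv _ (hall s hs)
    have hpat : ∀ z, V - V / 16 / X ≤ ((Pat π h z).card : ℝ) := fun z => by
      have := pat_card π h _ hc0 hall' z
      rw [← hV] at this
      exact this
    -- the threshold is at most the number of programs
    have htΩ : t ≤ Fintype.card Ω := by
      obtain ⟨x, hx⟩ : (Pat π h (fun _ => true)).Nonempty := by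
        rw [← card_pos]
        have h3 := hpat (fun _ => true)
        have h4 : (0 : ℝ) < ((Pat π h (fun _ => true)).card : ℝ) := by linarith
        exact_mod_cast h4
      have h3 := (hcon x).2 ⟨⟨0, by omega⟩, (mem_filter.1 hx).2 _⟩
      rw [← h3, Nat.card_eq_fintype_card]
      exact Fintype.card_subtype_le _
    -- correlations
    have hsingle : ∀ (R : NBP (Fin n)), ReadK R (2 * k) → Determ R →
        Fintype.card R.State < 2 ^ (n / N) →
        |∑ x ∈ univ.filter (fun x => Acc R x), ((chi π h univ x : ℤ) : ℝ)| ≤ V / 16 / X := by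
      intro R h1 h2 h3
      have h4 := hcorr R h1 h2 h3 univ (by rw [card_univ, Fintype.card_fin]; omega)
      rw [← hX, ← hV] at h4
      have h5 := hdiv _ h4
      rw [Int.cast_abs, Int.cast_sum] at h5
      exact h5
    have hsz : ∀ a b : ℕ, a < 2 ^ (n / D) → b < 2 ^ (n / D) → a + b < 2 ^ (n / N) := by
      intro a b ha hb
      have h3 : 2 ^ (n / D) ≤ 2 ^ (n / (2 * N)) := Nat.pow_le_pow_right (by norm_num) hDN
      have h4 : 2 * 2 ^ (n / (2 * N)) ≤ 2 ^ (n / N) := by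
        rw [← pow_succ']
        exact Nat.pow_le_pow_right (by norm_num) (by omega)
      omega
    have h1 : ∀ ω, |∑ x ∈ univ.filter (fun x => Acc (P ω) x), ((chi π h univ x : ℤ) : ℝ)| ≤
        V / 16 / X := fun ω => hsingle (P ω)
          (fun l t h1 h2 v => (hPk ω l t h1 h2 v).trans (by omega)) (hPD ω)
          (by have := hsz _ 0 (hP ω) (by positivity); omega)
    have h2 : ∀ ω ω', |∑ x ∈ univ.filter (fun x => Acc (P ω) x ∧ Acc (P ω') x),
        ((chi π h univ x : ℤ) : ℝ)| ≤ V / 16 / X := by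
      intro ω ω'
      obtain ⟨R, hR1, hR2, hR3, hR4⟩ := seq_prog k (P ω) (P ω') (hPk ω) (hPk ω') (hPD ω) (hPD ω')
      have h3 := hsingle R hR1 hR2 (by rw [hR3]; exact hsz _ _ (hP ω) (hP ω'))
      simp only [hR4] at h3
      exact h3
    have h0 : |∑ x : Pt n, ((chi π h univ x : ℤ) : ℝ)| ≤ V / 16 / X := by
      have h3 := hall' univ ⟨⟨0, by omega⟩, mem_univ _⟩
      rw [Int.cast_abs, Int.cast_sum] at h3
      exact h3
    have hsq := sq_bound (fun ω x => Acc (P ω) x) (fun x => ((chi π h univ x : ℤ) : ℝ)) (t : ℝ) _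
      (Nat.cast_nonneg _) h2 h1 h0
    -- the lower bound
    have hlow : ((Pat π h (fun _ => false)).card : ℝ) ≤
        ∑ x, (((univ.filter (fun ω => Acc (P ω) x)).card : ℝ) - t) ^ 2 *
          ((chi π h univ x : ℤ) : ℝ) := by
      have h3 : ((Pat π h (fun _ => false)).card : ℝ) =
          ∑ x : Pt n, if x ∈ Pat π h (fun _ => false) then (1 : ℝ) else 0 := by
        rw [Finset.sum_boole, Finset.filter_mem_eq_inter, Finset.univ_inter]
      rw [h3]
      refine Finset.sum_le_sum fun x _ => ?_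
      have hx := hcon x
      rw [Nat.card_eq_fintype_card, Fintype.card_subtype] at hx
      split_ifs with h4
      · have h5 : ∀ i, qr (π i) (h i) x = false := (mem_filter.1 h4).2
        have h6 : (univ.filter (fun ω => Acc (P ω) x)).card ≠ t := by
          intro h7
          obtain ⟨j, hj⟩ := hx.1 h7
          rw [h5 j] at hj
          exact absurd hj (by simp)
        have h7 : chi π h univ x = 1 := by
          rw [chi]
          exact Finset.prod_eq_one fun i _ => by rw [h5 i]; rfl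
        rw [h7]
        have h8 : (1 : ℤ) ≤ (((univ.filter (fun ω => Acc (P ω) x)).card : ℤ) - (t : ℤ)) ^ 2 := by
          have h9 : (((univ.filter (fun ω => Acc (P ω) x)).card : ℤ) - (t : ℤ)) ≠ 0 := by
            intro h10
            apply h6
            omega
          have h10 := sq_pos_of_ne_zero h9
          omega
        have h9 : (1 : ℝ) ≤ (((univ.filter (fun ω => Acc (P ω) x)).card : ℝ) - (t : ℝ)) ^ 2 := by
          exact_mod_cast h8
        simpa using h9
      · have h5 : ∃ j, qr (π j) (h j) x = true := by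
          by_contra h6
          push Not at h6
          apply h4
          rw [Pat, mem_filter]
          exact ⟨mem_univ _, fun i => by simpa using h6 i⟩
        have h6 := hx.2 h5
        rw [h6]
        simp
    have h3 := (le_abs_self _).trans hsq
    have h4 := hpat (fun _ => false)
    obtain ⟨O, hO⟩ : ∃ O : ℝ, O = (Fintype.card Ω : ℝ) := ⟨_, rfl⟩
    have hO2 : O ^ 2 ≤ X := by
      rw [hO, hX]
      have h5 : Fintype.card Ω ^ 2 ≤ 2 ^ (n / N) := by
        rw [Nat.card_eq_fintype_card] at hΩ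
        calc Fintype.card Ω ^ 2 ≤ (2 ^ (n / D)) ^ 2 := Nat.pow_le_pow_left hΩ.le 2
          _ = 2 ^ (2 * (n / D)) := by rw [← pow_mul, Nat.mul_comm]
          _ ≤ 2 ^ (n / N) := Nat.pow_le_pow_right (by norm_num) (by omega)
      exact_mod_cast h5
    have htO : (t : ℝ) ≤ O := by rw [hO]; exact_mod_cast htΩ
    have hO0 : 0 ≤ O := by rw [hO]; positivity
    rw [← hO] at h3
    have h5 : (O + (t : ℝ)) ^ 2 ≤ 4 * X := by
      have h6 : O + (t : ℝ) ≤ 2 * O := by linarith
      have h7 : (O + (t : ℝ)) ^ 2 ≤ (2 * O) ^ 2 := by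
        apply pow_le_pow_left₀ _ h6
        have : (0 : ℝ) ≤ t := Nat.cast_nonneg _
        linarith
      nlinarith
    have h6 : (O + (t : ℝ)) ^ 2 * (V / 16 / X) ≤ 4 * X * (V / 16 / X) :=
      mul_le_mul_of_nonneg_right h5 hc0
    have h7 : 4 * X * (V / 16 / X) = V / 4 := by
      calc 4 * X * (V / 16 / X) = 4 * (X * (V / 16 / X)) := by ring
        _ = V / 4 := by rw [hXc]; ring
    linarith

end Pool.Agent.H554R2.RK
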