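import Pool.Agent.H554R2.RK.Defs

/-!
# Minsky-Papert in dual form

The threshold degree of a disjunction of `L + 1` conjunctions is greater than `L`.
-/

set_option autoImplicit false

open Finset

namespace Pool.Agent.H554R2.RK

open Pool.Agent.H554R2.Rnd

/-- some row consists of ones; the entries are numbered by the pairs (row, column) -/
def orand {t w : ℕ} (z : Fin (t * w) → Bool) : Bool :=
  decide (∃ i : Fin t, ∀ j : Fin w, z (finProdFinEquiv (i, j)) = true)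

/-- indicator -/
def MP1x {w : ℕ} (a : ℕ) (σ : Equiv.Perm (Fin w)) (j : Fin w) : ℝ :=
  if ((σ j : Fin w) : ℕ) < a then 1 else 0

theorem MP1_sum {w : ℕ} (a : ℕ) (ha : a ≤ w) (σ : Equiv.Perm (Fin w)) :
    ∑ j, MP1x a σ j = a := by
  unfold MP1x
  have h1 := Equiv.sum_comp σ (fun i : Fin w => if (i : ℕ) < a then (1 : ℝ) else 0)
  rw [h1, Fin.sum_univ_eq_sum_range (fun i => if i < a then (1 : ℝ) else 0) w, Finset.sum_boole]
  have h2 : (Finset.range w).filter (fun i => i < a) = Finset.range a := by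
    ext i
    simp only [Finset.mem_filter, Finset.mem_range]
    omega
  rw [h2, Finset.card_range]

theorem MP1_idem {w : ℕ} (a : ℕ) (σ : Equiv.Perm (Fin w)) (s : Finset (Fin w)) (j : Fin w)
    (hj : j ∈ s) : MP1x a σ j * ∏ i ∈ s, MP1x a σ i = ∏ i ∈ s, MP1x a σ i := by
  by_cases h : ((σ j : Fin w) : ℕ) < a
  · have h1 : MP1x a σ j = 1 := if_pos h
    rw [h1, one_mul]
  · have h1 : MP1x a σ j = 0 := if_neg h
    rw [Finset.prod_eq_zero hj h1, mul_zero]

theorem MP1_symm {w : ℕ} (a : ℕ) (s : Finset (Fin w)) (j j0 : Fin w) (hj : j ∉ s)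
    (hj0 : j0 ∉ s) :
    ∑ σ : Equiv.Perm (Fin w), ∏ i ∈ insert j s, MP1x a σ i =
      ∑ σ : Equiv.Perm (Fin w), ∏ i ∈ insert j0 s, MP1x a σ i := by
  classical
  have h1 := Equiv.sum_comp (Equiv.mulRight (Equiv.swap j j0))
    (fun σ : Equiv.Perm (Fin w) => ∏ i ∈ insert j s, MP1x a σ i)
  rw [← h1]
  refine Finset.sum_congr rfl fun σ _ => ?_
  rw [Finset.prod_insert hj, Finset.prod_insert hj0]
  have h2 : MP1x a ((Equiv.mulRight (Equiv.swap j j0)) σ) j = MP1x a σ j0 := by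
    simp [MP1x]
  rw [h2]
  congr 1
  refine Finset.prod_congr rfl fun i hi => ?_
  have h3 : i ≠ j := fun h => hj (h ▸ hi)
  have h4 : i ≠ j0 := fun h => hj0 (h ▸ hi)
  simp [MP1x, Equiv.swap_apply_of_ne_of_ne h3 h4]

theorem MP1_rec {w : ℕ} (a : ℕ) (ha : a ≤ w) (s : Finset (Fin w)) (j0 : Fin w) (hj0 : j0 ∉ s) :
    ((w : ℝ) - s.card) * ∑ σ : Equiv.Perm (Fin w), ∏ i ∈ insert j0 s, MP1x a σ i =
      ((a : ℝ) - s.card) * ∑ σ : Equiv.Perm (Fin w), ∏ i ∈ s, MP1x a σ i := by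
  classical
  have hc : ((sᶜ : Finset (Fin w)).card : ℝ) = (w : ℝ) - s.card := by
    rw [Finset.card_compl, Fintype.card_fin, Nat.cast_sub]
    have := Finset.card_le_univ s
    rwa [Fintype.card_fin] at this
  rw [← hc, ← nsmul_eq_mul, ← Finset.sum_const]
  have h1 : ∀ j ∈ sᶜ, ∑ σ : Equiv.Perm (Fin w), ∏ i ∈ insert j0 s, MP1x a σ i =
      ∑ σ : Equiv.Perm (Fin w), MP1x a σ j * ∏ i ∈ s, MP1x a σ i := by
    intro j hj
    rw [Finset.mem_compl] at hj
    rw [← MP1_symm a s j j0 hj hj0]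
    exact Finset.sum_congr rfl fun σ _ => Finset.prod_insert hj
  rw [Finset.sum_congr rfl h1, Finset.sum_comm, Finset.mul_sum]
  refine Finset.sum_congr rfl fun σ _ => ?_
  rw [← Finset.sum_mul]
  have h2 : ∑ j ∈ sᶜ, MP1x a σ j = (a : ℝ) - ∑ j ∈ s, MP1x a σ j := by
    have h3 := Finset.sum_add_sum_compl s (fun j => MP1x a σ j)
    rw [MP1_sum a ha σ] at h3
    linarith
  rw [h2, sub_mul, sub_mul, Finset.sum_mul]
  congr 1
  rw [Finset.sum_congr rfl (fun j hj => MP1_idem a σ s j hj), Finset.sum_const, nsmul_eq_mul]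

theorem MP1_poly (w : ℕ) (s : Finset (Fin w)) :
    ∃ P : Polynomial ℝ, P.natDegree ≤ s.card ∧ ∀ a ≤ w,
      ∑ σ : Equiv.Perm (Fin w), ∏ j ∈ s, MP1x a σ j = P.eval (a : ℝ) := by
  classical
  induction s using Finset.induction_on with
  | empty =>
    refine ⟨Polynomial.C (Fintype.card (Equiv.Perm (Fin w)) : ℝ), by simp, fun a _ => ?_⟩
    simp
  | insert j0 s hj0 ih =>
    obtain ⟨P, hP, hPe⟩ := ih
    have hlt : s.card < w := by
      have := Finset.card_le_univ (insert j0 s)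
      rw [Finset.card_insert_of_notMem hj0, Fintype.card_fin] at this
      omega
    have hne : ((w : ℝ) - s.card) ≠ 0 := by
      have : (s.card : ℝ) < w := by exact_mod_cast hlt
      intro h
      linarith
    refine ⟨Polynomial.C ((w : ℝ) - s.card)⁻¹ * ((Polynomial.X - Polynomial.C (s.card : ℝ)) * P),
      ?_, fun a ha => ?_⟩
    · refine le_trans (Polynomial.natDegree_C_mul_le _ _) ?_
      refine le_trans Polynomial.natDegree_mul_le ?_
      rw [Polynomial.natDegree_X_sub_C, Finset.card_insert_of_notMem hj0]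
      omega
    · have h := MP1_rec a ha s j0 hj0
      rw [hPe a ha] at h
      simp only [Polynomial.eval_mul, Polynomial.eval_C, Polynomial.eval_sub, Polynomial.eval_X]
      rw [← h, ← mul_assoc, inv_mul_cancel₀ hne, one_mul]

theorem MP1_row (w : ℕ) (s : Finset (Fin w)) :
    ∃ P : Polynomial ℝ, P.natDegree ≤ s.card ∧ ∀ a ≤ w,
      ∑ σ : Equiv.Perm (Fin w), ∏ j ∈ s, ((sgn (decide (((σ j : Fin w) : ℕ) < a)) : ℤ) : ℝ) =
        P.eval (a : ℝ) := by
  classical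
  choose Q hQ hQe using MP1_poly w
  refine ⟨∑ u ∈ s.powerset, Polynomial.C ((-2 : ℝ) ^ u.card) * Q u, ?_, fun a ha => ?_⟩
  · refine Polynomial.natDegree_sum_le_of_forall_le _ _ fun u hu => ?_
    refine le_trans (Polynomial.natDegree_C_mul_le _ _) (le_trans (hQ u) ?_)
    exact Finset.card_le_card (Finset.mem_powerset.1 hu)
  · have h1 : ∀ σ : Equiv.Perm (Fin w),
        ∏ j ∈ s, ((sgn (decide (((σ j : Fin w) : ℕ) < a)) : ℤ) : ℝ) =
          ∑ u ∈ s.powerset, (-2 : ℝ) ^ u.card * ∏ j ∈ u, MP1x a σ j := by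
      intro σ
      have h2 : ∀ j ∈ s, ((sgn (decide (((σ j : Fin w) : ℕ) < a)) : ℤ) : ℝ) =
          1 + (-2) * MP1x a σ j := by
        intro j _
        unfold sgn MP1x
        by_cases h : ((σ j : Fin w) : ℕ) < a
        · simp [h]; norm_num
        · simp [h]
      rw [Finset.prod_congr rfl h2, Finset.prod_one_add]
      refine Finset.sum_congr rfl fun u _ => ?_
      rw [Finset.prod_mul_distrib, Finset.prod_const]
    rw [Finset.sum_congr rfl (fun σ _ => h1 σ), Finset.sum_comm, Polynomial.eval_finsetSum]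
    refine Finset.sum_congr rfl fun u _ => ?_
    rw [← Finset.mul_sum, hQe u a ha, Polynomial.eval_mul, Polynomial.eval_C]

theorem MP1_diff (n : ℕ) (P : Polynomial ℝ) (hP : P.natDegree < 2 * n) :
    ∑ y ∈ Finset.range (2 * n + 1), (-1 : ℝ) ^ (y + 1) * ((2 * n).choose y : ℝ) *
      P.eval (y : ℝ) = 0 := by
  have h1 := congrFun (Polynomial.fwdDiff_iter_eq_zero_of_degree_lt hP) 0
  rw [fwdDiff_iter_eq_sum_shift] at h1
  have h2 : ∑ y ∈ Finset.range (2 * n + 1), (-1 : ℝ) ^ (y + 1) * ((2 * n).choose y : ℝ) *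
      P.eval (y : ℝ) = - ∑ k ∈ Finset.range (2 * n + 1),
        ((-1 : ℤ) ^ (2 * n - k) * ((2 * n).choose k : ℤ)) • P.eval (0 + k • (1 : ℝ)) := by
    rw [← Finset.sum_neg_distrib]
    refine Finset.sum_congr rfl fun k hk => ?_
    have hk2 : k ≤ 2 * n := by
      have := Finset.mem_range.1 hk
      omega
    have h3 : (-1 : ℝ) ^ (2 * n - k) = (-1) ^ k := by
      have h4 : (-1 : ℝ) ^ (2 * n - k) * (-1) ^ k = 1 := by
        rw [← pow_add, Nat.sub_add_cancel hk2, pow_mul]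
        norm_num
      have h5 : (-1 : ℝ) ^ k * (-1) ^ k = 1 := by
        rw [← mul_pow]
        norm_num
      have h6 : (-1 : ℝ) ^ k ≠ 0 := pow_ne_zero _ (by norm_num)
      exact mul_right_cancel₀ h6 (h4.trans h5.symm)
    rw [zsmul_eq_mul]
    push_cast
    rw [h3, zero_add, nsmul_eq_mul, mul_one, pow_succ]
    ring
  rw [h2, h1]
  simp

/-- the number of ones in row `i` at time `y` -/
def MP1a (w i y : ℕ) : ℕ := w - ((y : ℤ) - (2 * i + 1)).natAbs ^ 2

theorem MP1a_le (w i y : ℕ) : MP1a w i y ≤ w := Nat.sub_le _ _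

theorem MP1a_sq (t i y : ℕ) (hi : i < t) (hy : y ≤ 2 * t) :
    ((y : ℤ) - (2 * i + 1)).natAbs ^ 2 ≤ 4 * t ^ 2 := by
  have h : ((y : ℤ) - (2 * i + 1)).natAbs ≤ 2 * t := by omega
  calc ((y : ℤ) - (2 * i + 1)).natAbs ^ 2 ≤ (2 * t) ^ 2 := Nat.pow_le_pow_left h 2
    _ = 4 * t ^ 2 := by ring

theorem MP1a_cast (t i y : ℕ) (hi : i < t) (hy : y ≤ 2 * t) :
    (MP1a (4 * t ^ 2) i y : ℝ) = ((4 * t ^ 2 : ℕ) : ℝ) - ((y : ℝ) - (2 * i + 1)) ^ 2 := by
  unfold MP1a
  rw [Nat.cast_sub (MP1a_sq t i y hi hy)]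
  congr 1
  rw [Nat.cast_pow]
  have h : ((((y : ℤ) - (2 * i + 1)).natAbs : ℕ) : ℝ) = |(y : ℝ) - (2 * i + 1)| := by
    rw [Nat.cast_natAbs]
    push_cast
    rfl
  rw [h, sq_abs]

theorem MP1a_eq (t i y : ℕ) (hi : i < t) (hy : y ≤ 2 * t) :
    MP1a (4 * t ^ 2) i y = 4 * t ^ 2 ↔ y = 2 * i + 1 := by
  have h := MP1a_sq t i y hi hy
  have ht0 : 0 < t := by omega
  have ht : 0 < 4 * t ^ 2 := by positivity
  unfold MP1a
  constructor
  · intro h1
    have h2 : ((y : ℤ) - (2 * i + 1)).natAbs ^ 2 = 0 := by omega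
    have h3 : ((y : ℤ) - (2 * i + 1)).natAbs = 0 := by
      exact pow_eq_zero_iff (two_ne_zero) |>.1 h2
    omega
  · intro h1
    have h3 : ((y : ℤ) - (2 * i + 1)).natAbs = 0 := by omega
    rw [h3]
    simp

/-- the input given by the permutations `σ` of the rows at time `y` -/
def MP1z {t w : ℕ} (σ : Fin t → Equiv.Perm (Fin w)) (y : ℕ) : Fin (t * w) → Bool := fun c =>
  decide (((σ (finProdFinEquiv.symm c).1 (finProdFinEquiv.symm c).2 : Fin w) : ℕ) <
    MP1a w (finProdFinEquiv.symm c).1 y)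

theorem MP1z_apply {t w : ℕ} (σ : Fin t → Equiv.Perm (Fin w)) (y : ℕ) (i : Fin t) (j : Fin w) :
    MP1z σ y (finProdFinEquiv (i, j)) = decide (((σ i j : Fin w) : ℕ) < MP1a w i y) := by
  unfold MP1z
  rw [Equiv.symm_apply_apply]

theorem MP1z_orand (t y : ℕ) (hy : y ≤ 2 * t) (ht : 0 < t)
    (σ : Fin t → Equiv.Perm (Fin (4 * t ^ 2))) : orand (MP1z σ y) = true ↔ Odd y := by
  unfold orand
  rw [decide_eq_true_eq]
  have hw : 0 < 4 * t ^ 2 := by positivity
  constructor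
  · rintro ⟨i, hi⟩
    have h1 := hi ((σ i).symm ⟨4 * t ^ 2 - 1, by omega⟩)
    rw [MP1z_apply, decide_eq_true_eq, Equiv.apply_symm_apply] at h1
    have h2 := MP1a_le (4 * t ^ 2) i y
    have h3 : MP1a (4 * t ^ 2) i y = 4 * t ^ 2 := by
      simp only at h1
      omega
    rw [MP1a_eq t i y i.2 hy] at h3
    exact ⟨i, h3⟩
  · rintro ⟨k, hk⟩
    have hkt : k < t := by omega
    refine ⟨⟨k, hkt⟩, fun j => ?_⟩
    rw [MP1z_apply, decide_eq_true_eq]
    have h3 : MP1a (4 * t ^ 2) k y = 4 * t ^ 2 := (MP1a_eq t k y hkt hy).2 hk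
    rw [h3]
    exact (σ ⟨k, hkt⟩ j).2

/-- the row `i` of the set `s` -/
def MP1s {t w : ℕ} (s : Finset (Fin (t * w))) (i : Fin t) : Finset (Fin w) :=
  univ.filter (fun j => finProdFinEquiv (i, j) ∈ s)

theorem MP1_prod {t w : ℕ} (s : Finset (Fin (t * w))) (g : Fin (t * w) → ℝ) :
    ∏ c ∈ s, g c = ∏ i : Fin t, ∏ j ∈ MP1s s i, g (finProdFinEquiv (i, j)) := by
  classical
  have h0 : ∏ c ∈ s, g c = ∏ c, if c ∈ s then g c else 1 := by
    rw [Finset.prod_ite_mem, Finset.univ_inter]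
  rw [h0, ← Equiv.prod_comp finProdFinEquiv, Fintype.prod_prod_type]
  refine Finset.prod_congr rfl fun i _ => ?_
  unfold MP1s
  rw [Finset.prod_filter]

theorem MP1_card {t w : ℕ} (s : Finset (Fin (t * w))) : ∑ i : Fin t, (MP1s s i).card = s.card := by
  classical
  have h1 : s.card = ∑ c : Fin (t * w), if c ∈ s then 1 else 0 := by
    rw [Finset.sum_ite_mem, Finset.univ_inter, Finset.card_eq_sum_ones]
  rw [h1, ← Equiv.sum_comp finProdFinEquiv, Fintype.sum_prod_type]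
  refine Finset.sum_congr rfl fun i _ => ?_
  unfold MP1s
  rw [Finset.card_filter]

theorem MP1_H (t : ℕ) (s : Finset (Fin (t * (4 * t ^ 2)))) :
    ∃ P : Polynomial ℝ, P.natDegree ≤ 2 * s.card ∧ ∀ y ≤ 2 * t,
      ∑ σ : Fin t → Equiv.Perm (Fin (4 * t ^ 2)), ∏ c ∈ s, ((sgn (MP1z σ y c) : ℤ) : ℝ) =
        P.eval (y : ℝ) := by
  classical
  choose Q hQ hQe using fun i : Fin t => MP1_row (4 * t ^ 2) (MP1s s i)
  refine ⟨∏ i : Fin t, (Q i).comp (Polynomial.C (((4 * t ^ 2 : ℕ) : ℝ)) -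
    (Polynomial.X - Polynomial.C (2 * (i : ℕ) + 1 : ℝ)) ^ 2), ?_, fun y hy => ?_⟩
  · refine le_trans (Polynomial.natDegree_prod_le _ _) ?_
    rw [← MP1_card s, Finset.mul_sum]
    refine Finset.sum_le_sum fun i _ => ?_
    refine le_trans Polynomial.natDegree_comp_le ?_
    rw [Nat.mul_comm 2]
    refine Nat.mul_le_mul (hQ i) ?_
    refine le_trans (Polynomial.natDegree_sub_le _ _) ?_
    rw [Polynomial.natDegree_C, Polynomial.natDegree_pow, Polynomial.natDegree_X_sub_C]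
    simp
  · have h1 : ∀ σ : Fin t → Equiv.Perm (Fin (4 * t ^ 2)),
        ∏ c ∈ s, ((sgn (MP1z σ y c) : ℤ) : ℝ) =
          ∏ i : Fin t, ∏ j ∈ MP1s s i,
            ((sgn (decide (((σ i j : Fin (4 * t ^ 2)) : ℕ) < MP1a (4 * t ^ 2) i y)) : ℤ) : ℝ) := by
      intro σ
      rw [MP1_prod]
      refine Finset.prod_congr rfl fun i _ => Finset.prod_congr rfl fun j _ => ?_
      rw [MP1z_apply]
    rw [Finset.sum_congr rfl (fun σ _ => h1 σ)]
    have h2 := Finset.prod_univ_sum (fun _ : Fin t => (univ : Finset (Equiv.Perm (Fin (4 * t ^ 2)))))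
      (fun i τ => ∏ j ∈ MP1s s i,
        ((sgn (decide (((τ j : Fin (4 * t ^ 2)) : ℕ) < MP1a (4 * t ^ 2) i y)) : ℤ) : ℝ))
    rw [Fintype.piFinset_univ] at h2
    rw [← h2, Polynomial.eval_prod]
    refine Finset.prod_congr rfl fun i _ => ?_
    rw [hQe i _ (MP1a_le _ _ _), MP1a_cast t i y i.2 hy, Polynomial.eval_comp]
    simp

theorem MP1_sgn_odd {y : ℕ} (h : Odd y) : (-1 : ℝ) ^ (y + 1) = 1 := by
  have : Even (y + 1) := h.add_one
  exact this.neg_one_pow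

theorem MP1_sgn_even {y : ℕ} (h : ¬ Odd y) : (-1 : ℝ) ^ (y + 1) = -1 := by
  rw [Nat.not_odd_iff_even] at h
  have : Odd (y + 1) := h.add_one
  exact this.neg_one_pow

/-- the dual polynomial before normalisation -/
noncomputable def MP1psi (t : ℕ) (z : Fin (t * (4 * t ^ 2)) → Bool) : ℝ :=
  ∑ y ∈ Finset.range (2 * t + 1), ∑ σ : Fin t → Equiv.Perm (Fin (4 * t ^ 2)),
    if MP1z σ y = z then (-1 : ℝ) ^ (y + 1) * ((2 * t).choose y : ℝ) else 0

theorem MP1psi_nonneg (t : ℕ) (ht : 0 < t) (z : Fin (t * (4 * t ^ 2)) → Bool)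
    (h : orand z = true) : 0 ≤ MP1psi t z := by
  refine Finset.sum_nonneg fun y hy => Finset.sum_nonneg fun σ _ => ?_
  have hy2 : y ≤ 2 * t := by
    have := Finset.mem_range.1 hy
    omega
  split_ifs with hz
  · rw [← hz, MP1z_orand t y hy2 ht σ] at h
    rw [MP1_sgn_odd h, one_mul]
    exact Nat.cast_nonneg _
  · exact le_refl _

theorem MP1psi_term (t : ℕ) (ht : 0 < t) (z : Fin (t * (4 * t ^ 2)) → Bool)
    (h : orand z = false) (y : ℕ) (hy2 : y ≤ 2 * t)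
    (σ : Fin t → Equiv.Perm (Fin (4 * t ^ 2))) :
    (if MP1z σ y = z then (-1 : ℝ) ^ (y + 1) * ((2 * t).choose y : ℝ) else 0) ≤ 0 := by
  split_ifs with hz
  · have h2 : ¬ Odd y := by
      rw [← MP1z_orand t y hy2 ht σ, hz, h]
      decide
    rw [MP1_sgn_even h2, neg_one_mul]
    exact neg_nonpos.2 (Nat.cast_nonneg _)
  · exact le_refl _

theorem MP1psi_nonpos (t : ℕ) (ht : 0 < t) (z : Fin (t * (4 * t ^ 2)) → Bool)
    (h : orand z = false) : MP1psi t z ≤ 0 := by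
  refine Finset.sum_nonpos fun y hy => Finset.sum_nonpos fun σ _ => ?_
  have hy2 : y ≤ 2 * t := by
    have := Finset.mem_range.1 hy
    omega
  exact MP1psi_term t ht z h y hy2 σ

theorem MP1psi_ne (t : ℕ) (ht : 0 < t) : ∃ z, MP1psi t z ≠ 0 := by
  classical
  refine ⟨MP1z (fun _ => 1) 0, fun h => ?_⟩
  have ho : orand (MP1z (fun _ : Fin t => (1 : Equiv.Perm (Fin (4 * t ^ 2)))) 0) = false := by
    have := MP1z_orand t 0 (Nat.zero_le _) ht (fun _ => 1)
    rw [Bool.eq_false_iff]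
    intro h2
    exact absurd (this.1 h2) (by decide)
  unfold MP1psi at h
  rw [Finset.sum_eq_zero_iff_of_nonpos] at h
  · have h1 := h 0 (Finset.mem_range.2 (Nat.succ_pos _))
    rw [Finset.sum_eq_zero_iff_of_nonpos] at h1
    · have h2 := h1 (fun _ => 1) (Finset.mem_univ _)
      rw [if_pos rfl] at h2
      simp at h2
    · intro σ _
      exact MP1psi_term t ht _ ho 0 (Nat.zero_le _) σ
  · intro y hy
    have hy2 : y ≤ 2 * t := by
      have := Finset.mem_range.1 hy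
      omega
    exact Finset.sum_nonpos fun σ _ => MP1psi_term t ht _ ho y hy2 σ

theorem MP1psi_orth (t : ℕ) (s : Finset (Fin (t * (4 * t ^ 2)))) (hs : s.card < t) :
    ∑ z, MP1psi t z * ∏ i ∈ s, ((sgn (z i) : ℤ) : ℝ) = 0 := by
  classical
  obtain ⟨P, hP, hPe⟩ := MP1_H t s
  have h1 : ∑ z, MP1psi t z * ∏ i ∈ s, ((sgn (z i) : ℤ) : ℝ) =
      ∑ y ∈ Finset.range (2 * t + 1), ∑ σ : Fin t → Equiv.Perm (Fin (4 * t ^ 2)),
        (-1 : ℝ) ^ (y + 1) * ((2 * t).choose y : ℝ) * ∏ c ∈ s, ((sgn (MP1z σ y c) : ℤ) : ℝ) := by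
    unfold MP1psi
    simp only [Finset.sum_mul]
    rw [Finset.sum_comm]
    refine Finset.sum_congr rfl fun y _ => ?_
    rw [Finset.sum_comm]
    refine Finset.sum_congr rfl fun σ _ => ?_
    rw [Finset.sum_eq_single (MP1z σ y)]
    · rw [if_pos rfl]
    · intro z _ hz
      rw [if_neg (fun h => hz h.symm), zero_mul]
    · intro h
      exact absurd (Finset.mem_univ _) h
  rw [h1, ← MP1_diff t P (by omega)]
  refine Finset.sum_congr rfl fun y hy => ?_
  have hy2 : y ≤ 2 * t := by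
    have := Finset.mem_range.1 hy
    omega
  rw [← hPe y hy2, Finset.mul_sum]

/-- MP1: the threshold degree of a disjunction of `L + 1` conjunctions is greater than `L`
(dual form) -/
theorem minsky_papert (L : ℕ) :
    ∃ ψ : (Fin ((L + 1) * (4 * (L + 1) ^ 2)) → Bool) → ℝ,
      (∀ z, orand z = true → 0 ≤ ψ z) ∧ (∀ z, orand z = false → ψ z ≤ 0) ∧
      ∑ z, |ψ z| = 1 ∧
      ∀ s : Finset (Fin ((L + 1) * (4 * (L + 1) ^ 2))), s.card ≤ L →
        ∑ z, ψ z * ∏ i ∈ s, ((sgn (z i) : ℤ) : ℝ) = 0 := by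
  classical
  have ht : 0 < L + 1 := Nat.succ_pos L
  obtain ⟨z0, hz0⟩ := MP1psi_ne (L + 1) ht
  have hM : 0 < ∑ z, |MP1psi (L + 1) z| :=
    Finset.sum_pos' (fun z _ => abs_nonneg _) ⟨z0, Finset.mem_univ _, abs_pos.2 hz0⟩
  obtain ⟨M, hMd⟩ : ∃ M, M = ∑ z, |MP1psi (L + 1) z| := ⟨_, rfl⟩
  rw [← hMd] at hM
  refine ⟨fun z => MP1psi (L + 1) z / M, ?_, ?_, ?_, ?_⟩
  · intro z hz
    exact div_nonneg (MP1psi_nonneg (L + 1) ht z hz) hM.le
  · intro z hz
    exact div_nonpos_of_nonpos_of_nonneg (MP1psi_nonpos (L + 1) ht z hz) hM.le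
  · have h1 : ∀ z, |MP1psi (L + 1) z / M| = |MP1psi (L + 1) z| / M := by
      intro z
      rw [abs_div, abs_of_pos hM]
    rw [Finset.sum_congr rfl (fun z _ => h1 z), ← Finset.sum_div, ← hMd, div_self hM.ne']
  · intro s hs
    have h2 : ∀ z, MP1psi (L + 1) z / M * ∏ i ∈ s, ((sgn (z i) : ℤ) : ℝ) =
        (MP1psi (L + 1) z * ∏ i ∈ s, ((sgn (z i) : ℤ) : ℝ)) / M := by
      intro z
      rw [div_mul_eq_mul_div]
    rw [Finset.sum_congr rfl (fun z _ => h2 z), ← Finset.sum_div,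
      MP1psi_orth (L + 1) s (by omega), zero_div]

end Pool.Agent.H554R2.RK
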