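import Pool.Agent.H554R2.RK.Par
import Pool.Agent.H554R2.RK.MinskyPapert

/-!
# A disjunction of conjunctions of one-pass programs against programs with unbounded error
-/

set_option autoImplicit false

open Finset

namespace Pool.Agent.H554R2.RK

open Pool.Agent.H554R2.Sem Pool.Agent.H554R2.Coin Pool.Agent.H554R2.Lin Pool.Agent.H554R2.Rnd
open Pool.Agent.H554R2.Qua

open Classical in
theorem rk_gen (k : ℕ) : ∃ L : ℕ, ∀ m : ℕ, ∃ C N : ℕ, 0 < C ∧ 0 < N ∧ ∀ n ≥ N,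
    ∃ (G : ℕ) (π : Fin m → Fin n → Fin G) (h : Fin m → Fin n → Fin n → Bool),
      (∀ j, ∑ g, 2 ^ (univ.filter (fun v => π j v = g)).card ≤ C * n) ∧
      (∀ s : Finset (Fin m), s.Nonempty → 2 ^ (n / N) * ((|∑ x, chi π h s x| : ℤ) : ℝ) ≤
        2 ^ n / 2 ^ m / 16) ∧
      (∀ P : NBP (Fin n), ReadK P k → Determ P → Fintype.card P.State < 2 ^ (n / N) →
        ∀ s : Finset (Fin m), L < s.card →
          2 ^ (n / N) * ((|∑ x ∈ univ.filter (fun x => Acc P x), chi π h s x| : ℤ) : ℝ) ≤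
            2 ^ n / 2 ^ m / 16) := by
  classical
  obtain ⟨Q, c, hQ, hcoverb⟩ := det_rect_cover k
  obtain ⟨L, W0, hW0, hgroups⟩ := exists_groups (Q + 2) (by omega)
  refine ⟨L, fun m => ?_⟩
  obtain ⟨W1, hcoefs⟩ := exists_coefs (Q + 2) m (by omega)
  obtain ⟨W, hW⟩ : ∃ W : ℕ, W = W0 + W1 := ⟨_, rfl⟩
  obtain ⟨N1, hN1⟩ := hgroups W (by omega) m
  obtain ⟨N2, hN2⟩ := hcoefs W (by omega)
  obtain ⟨N6, hN6⟩ := exp_large (16384 * Q) (by omega) (16 * 2 ^ c * 2 ^ m)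
  obtain ⟨N, hN⟩ : ∃ N : ℕ, N = N1 + N2 + N6 + (Q + 2) * 4 + 16384 * Q * (c + 1) := ⟨_, rfl⟩
  refine ⟨4 * m * 9 ^ W + 1, N, by omega, by omega, fun n hn => ?_⟩
  have hn0 : 1 ≤ n := by omega
  obtain ⟨π, hπ1, hπ2, hπ3⟩ := hN1 n (by omega)
  obtain ⟨h, hh⟩ := hN2 n (by omega) π
  have hQ2 : ∀ a : ℕ, n ≤ Q * a → n ≤ (Q + 2) * a := fun a ha => ha.trans (by nlinarith)
  have hker : ∀ A B' : Finset (Fin n), Disjoint A B' → n ≤ (Q + 2) * A.card →
      n ≤ (Q + 2) * B'.card → ∀ s : Finset (Fin m), ∀ j ∈ s, Bal (π j) A B' →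
        (ker (coef π h s) A B').card * 2 ^ (min A.card B'.card / 2048) ≤ 2 ^ B'.card := hh
  obtain ⟨hA0c, hB0c, hdisj⟩ := halves n hn0
  set A0 : Finset (Fin n) := univ.filter (fun v : Fin n => 2 * v.val < n) with hA0
  set B0 : Finset (Fin n) := univ.filter (fun v : Fin n => ¬ 2 * v.val < n) with hB0
  have hnA : n ≤ (Q + 2) * A0.card := hA0c.trans (Nat.mul_le_mul_right _ (by omega))
  have hnB : n ≤ (Q + 2) * B0.card := by
    have hn12 : 12 ≤ n := by omega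
    have hB1 : 1 ≤ B0.card := by omega
    nlinarith
  have hsmall : ∀ s : Finset (Fin m), s.Nonempty →
      (|∑ x : Pt n, chi π h s x| : ℤ) ≤ (2 : ℝ) ^ n / 2 ^ (n / 8192) := by
    intro s hs
    obtain ⟨j, hj⟩ := hs
    exact all_small π h s (hker A0 B0 hdisj hnA hnB s j hj (hπ3 j))
  obtain ⟨e2, he2⟩ : ∃ e2 : ℕ, e2 = n / (16384 * Q) := ⟨_, rfl⟩
  have h2e : (2 : ℕ) ^ e2 * 2 ^ e2 ≤ 2 ^ (n / (8192 * Q)) := by
    rw [← pow_add]
    apply Nat.pow_le_pow_right (by norm_num)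
    rw [Nat.le_div_iff_mul_le (by omega), he2]
    have := Nat.mul_div_le n (16384 * Q)
    nlinarith
  have h3e : 16 * 2 ^ c * 2 ^ m ≤ 2 ^ e2 := by
    rw [he2]
    exact (Nat.le_mul_of_pos_right _ (by omega)).trans (hN6 n (by omega))
  have h4e : 2 ^ ((c + 1) * (n / N)) ≤ 2 ^ e2 := by
    apply Nat.pow_le_pow_right (by norm_num)
    rw [he2, Nat.le_div_iff_mul_le (by omega)]
    calc (c + 1) * (n / N) * (16384 * Q) = 16384 * Q * (c + 1) * (n / N) := by ring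
      _ ≤ N * (n / N) := Nat.mul_le_mul_right _ (by omega)
      _ ≤ n := Nat.mul_div_le n N
  have h5e : (2 : ℕ) ^ (n / (8192 * Q)) ≤ 2 ^ (n / 8192) := by
    apply Nat.pow_le_pow_right (by norm_num)
    exact Nat.div_le_div_left (by nlinarith) (by norm_num)
  have h6e : (2 : ℕ) ^ (n / N) ≤ 2 ^ e2 := by
    refine le_trans ?_ h4e
    exact Nat.pow_le_pow_right (by norm_num) (Nat.le_mul_of_pos_left _ (by omega))
  obtain ⟨X, hX⟩ : ∃ X : ℝ, X = 2 ^ (n / N) := ⟨_, rfl⟩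
  obtain ⟨Y, hY⟩ : ∃ Y : ℝ, Y = 2 ^ e2 := ⟨_, rfl⟩
  have hX1 : 1 ≤ X := by rw [hX]; exact one_le_pow₀ (by norm_num)
  have hY0 : 0 < Y := by rw [hY]; positivity
  have hYY : Y * Y ≤ 2 ^ (n / (8192 * Q)) := by rw [hY]; exact_mod_cast h2e
  have hYY' : Y * Y ≤ 2 ^ (n / 8192) := hYY.trans (by exact_mod_cast h5e)
  have hcY : 16 * 2 ^ c * 2 ^ m ≤ Y := by rw [hY]; exact_mod_cast h3e
  have hXc : X ^ (c + 1) ≤ Y := by
    rw [hX, hY, ← pow_mul, Nat.mul_comm]
    exact_mod_cast h4e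
  have hXY : X ≤ Y := by rw [hX, hY]; exact_mod_cast h6e
  have h1c : (1 : ℝ) ≤ 2 ^ c := one_le_pow₀ (by norm_num)
  have h2m : (0 : ℝ) < 2 ^ m := by positivity
  have h2n : (0 : ℝ) < 2 ^ n := by positivity
  have hmY : 16 * 2 ^ m ≤ Y := by
    refine le_trans ?_ hcY
    have : (2 : ℝ) ^ m ≤ 2 ^ c * 2 ^ m := le_mul_of_one_le_left h2m.le h1c
    linarith
  refine ⟨n / W, π, h, fun j => (hπ1 j).trans (Nat.mul_le_mul_right _ (by omega)), ?_, ?_⟩
  · intro s hs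
    rw [← hX]
    calc X * ((|∑ x, chi π h s x| : ℤ) : ℝ) ≤ X * ((2 : ℝ) ^ n / 2 ^ (n / 8192)) :=
          mul_le_mul_of_nonneg_left (hsmall s hs) (by linarith)
      _ ≤ Y * ((2 : ℝ) ^ n / (Y * Y)) := by
          apply mul_le_mul hXY _ (by positivity) hY0.le
          exact div_le_div_of_nonneg_left (by positivity) (by positivity) hYY'
      _ = 2 ^ n / Y := by field_simp
      _ ≤ 2 ^ n / (16 * 2 ^ m) := div_le_div_of_nonneg_left (by positivity) (by positivity) hmY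
      _ = 2 ^ n / 2 ^ m / 16 := by field_simp
  · intro P hPk hPD hPc s hs
    obtain ⟨m', ρ, hm', hρ1, hρ2, hρ3⟩ := hcoverb n (by omega) P hPk hPD (2 ^ (n / N)) hPc.le
    have hrect : ∀ j, ((|∑ x ∈ ρ j, chi π h s x| : ℤ) : ℝ) ≤
        2 ^ n / 2 ^ (n / (8192 * Q)) := by
      intro j
      obtain ⟨A, B, hAB, hA, hB, φ, ψ, hφ, hψ, hρφ⟩ := hρ2 j
      obtain ⟨i, his, hi⟩ : ∃ i ∈ s, Bal (π i) A B := by
        by_contra hcon
        push Not at hcon
        have h1 := hπ2 A B (hQ2 _ hA) (hQ2 _ hB)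
        rw [Nat.card_eq_fintype_card, Fintype.card_subtype] at h1
        have h3 : s ⊆ univ.filter (fun i => ¬ Bal (π i) A B) := fun i hi =>
          mem_filter.2 ⟨mem_univ _, hcon i hi⟩
        have h4 := card_le_card h3
        omega
      have h1 := rect_chi hQ (ρ j) A B hAB hA hB φ ψ hφ hψ hρφ π h s
        (hker A B hAB (hQ2 _ hA) (hQ2 _ hB) s i his hi)
      rw [le_div_iff₀ (by positivity)]
      exact h1
    have hacc : ((|∑ x ∈ univ.filter (fun x => Acc P x), chi π h s x| : ℤ) : ℝ) ≤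
        (2 * 2 ^ (n / N)) ^ c * (2 ^ n / 2 ^ (n / (8192 * Q))) := by
      have h1 : univ.filter (fun x => Acc P x) = univ.biUnion ρ := by
        ext x
        simp only [mem_filter, mem_univ, true_and, mem_biUnion]
        exact hρ1 x
      rw [h1, Finset.sum_biUnion (fun i _ j _ hij => hρ3 i j hij)]
      have h2 : ((|∑ j, ∑ x ∈ ρ j, chi π h s x| : ℤ) : ℝ) ≤
          ∑ j, ((|∑ x ∈ ρ j, chi π h s x| : ℤ) : ℝ) := by
        exact_mod_cast Finset.abs_sum_le_sum_abs _ _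
      refine h2.trans ((Finset.sum_le_sum fun j _ => hrect j).trans ?_)
      rw [Finset.sum_const, nsmul_eq_mul, Finset.card_univ, Fintype.card_fin]
      apply mul_le_mul_of_nonneg_right _ (by positivity)
      have h3 : m' ≤ (2 * 2 ^ (n / N)) ^ c := by
        refine hm'.trans ?_
        apply Nat.pow_le_pow_left
        have := Nat.one_le_two_pow (n := n / N)
        omega
      exact_mod_cast h3
    rw [← hX] at hacc ⊢
    calc X * ((|∑ x ∈ univ.filter (fun x => Acc P x), chi π h s x| : ℤ) : ℝ) ≤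
          X * ((2 * X) ^ c * ((2 : ℝ) ^ n / 2 ^ (n / (8192 * Q)))) :=
          mul_le_mul_of_nonneg_left hacc (by linarith)
      _ = 2 ^ c * X ^ (c + 1) * ((2 : ℝ) ^ n / 2 ^ (n / (8192 * Q))) := by
            rw [mul_pow, pow_succ]; ring
      _ ≤ 2 ^ c * Y * ((2 : ℝ) ^ n / (Y * Y)) := by
          apply mul_le_mul _ _ (by positivity) (by positivity)
          · exact mul_le_mul_of_nonneg_left hXc (by positivity)
          · exact div_le_div_of_nonneg_left (by positivity) (by positivity) hYY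
      _ = 2 ^ n * (16 * 2 ^ c * 2 ^ m) / (16 * 2 ^ m * Y) := by field_simp
      _ ≤ 2 ^ n * Y / (16 * 2 ^ m * Y) := by
          apply div_le_div_of_nonneg_right _ (by positivity)
          exact mul_le_mul_of_nonneg_left hcY (by positivity)
      _ = 2 ^ n / 2 ^ m / 16 := by field_simp

end Pool.Agent.H554R2.RK
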