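import Pool.Agent.H554R2.RK.SigmaTwo

/-!
# A disjunction of conjunctions of one-pass programs: final statement
-/

set_option autoImplicit false

open Finset

namespace Pool.Agent.H554R2.RK

open Pool.Agent.H554R2.Sem Pool.Agent.H554R2.Coin Pool.Agent.H554R2.Lin Pool.Agent.H554R2.Rnd
open Pool.Agent.H554R2.Qua

theorem psi_sum {n G m L : ℕ} (π : Fin m → Fin n → Fin G) (h : Fin m → Fin n → Fin n → Bool)
    (ψ : (Fin m → Bool) → ℝ) (hψ1 : ∑ z, |ψ z| = 1)
    (hψL : ∀ s : Finset (Fin m), s.card ≤ L → ∑ z, ψ z * ∏ i ∈ s, ((sgn (z i) : ℤ) : ℝ) = 0)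
    (S : Finset (Pt n)) (c : ℝ) (hc0 : 0 ≤ c)
    (hc : ∀ s : Finset (Fin m), L < s.card → ((|∑ x ∈ S, chi π h s x| : ℤ) : ℝ) ≤ c) :
    |∑ x ∈ S, ψ (fun i => qr (π i) (h i) x)| ≤ c := by
  classical
  have e1 : ∀ x : Pt n, (2 : ℝ) ^ m * ψ (fun i => qr (π i) (h i) x) =
      ∑ s : Finset (Fin m), (∑ z, ψ z * ∏ i ∈ s, ((sgn (z i) : ℤ) : ℝ)) *
        ((chi π h s x : ℤ) : ℝ) := by
    intro x
    have h1 : ∑ s : Finset (Fin m), (∑ z, ψ z * ∏ i ∈ s, ((sgn (z i) : ℤ) : ℝ)) *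
        ((chi π h s x : ℤ) : ℝ) = ∑ z, ψ z *
          ((∑ s : Finset (Fin m), (∏ i ∈ s, sgn (z i)) * chi π h s x : ℤ) : ℝ) := by
      simp_rw [Finset.sum_mul]
      rw [Finset.sum_comm]
      refine Finset.sum_congr rfl fun z _ => ?_
      push_cast
      rw [Finset.mul_sum]
      refine Finset.sum_congr rfl fun s _ => ?_
      ring
    rw [h1]
    have h2 : ∀ z : Fin m → Bool, ψ z *
        ((∑ s : Finset (Fin m), (∏ i ∈ s, sgn (z i)) * chi π h s x : ℤ) : ℝ) =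
          if z = (fun i => qr (π i) (h i) x) then
            (2 : ℝ) ^ m * ψ (fun i => qr (π i) (h i) x) else 0 := by
      intro z
      rw [Q5_key]
      by_cases hz : z = (fun i => qr (π i) (h i) x)
      · rw [if_pos hz, if_pos, hz]
        · push_cast
          ring
        · rw [Pat, mem_filter]
          exact ⟨mem_univ _, fun i => by rw [hz]⟩
      · rw [if_neg hz, if_neg]
        · simp
        · intro h3
          apply hz
          funext i
          exact ((mem_filter.1 h3).2 i).symm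
    simp_rw [h2]
    rw [Finset.sum_ite_eq' univ (fun i => qr (π i) (h i) x), if_pos (mem_univ _)]
  have e2 : (2 : ℝ) ^ m * ∑ x ∈ S, ψ (fun i => qr (π i) (h i) x) =
      ∑ s : Finset (Fin m), (∑ z, ψ z * ∏ i ∈ s, ((sgn (z i) : ℤ) : ℝ)) *
        ((∑ x ∈ S, chi π h s x : ℤ) : ℝ) := by
    rw [Finset.mul_sum]
    simp_rw [e1]
    rw [Finset.sum_comm]
    refine Finset.sum_congr rfl fun s _ => ?_
    push_cast
    rw [Finset.mul_sum]
  have e3 : ∀ s : Finset (Fin m), |∑ z, ψ z * ∏ i ∈ s, ((sgn (z i) : ℤ) : ℝ)| ≤ 1 := by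
    intro s
    refine (Finset.abs_sum_le_sum_abs _ _).trans ?_
    rw [← hψ1]
    refine Finset.sum_le_sum fun z _ => ?_
    have h4 := Q5_abs z s
    push_cast at h4
    rw [abs_mul, h4, mul_one]
  have e4 : |(2 : ℝ) ^ m * ∑ x ∈ S, ψ (fun i => qr (π i) (h i) x)| ≤ 2 ^ m * c := by
    rw [e2]
    calc _ ≤ ∑ s : Finset (Fin m), |(∑ z, ψ z * ∏ i ∈ s, ((sgn (z i) : ℤ) : ℝ)) *
        ((∑ x ∈ S, chi π h s x : ℤ) : ℝ)| := Finset.abs_sum_le_sum_abs _ _
      _ ≤ ∑ _s : Finset (Fin m), c := by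
        refine Finset.sum_le_sum fun s _ => ?_
        by_cases hs : s.card ≤ L
        · rw [hψL s hs, zero_mul, abs_zero]
          exact hc0
        · rw [abs_mul]
          have h5 := hc s (by omega)
          rw [Int.cast_abs] at h5
          calc _ ≤ 1 * |((∑ x ∈ S, chi π h s x : ℤ) : ℝ)| :=
                mul_le_mul_of_nonneg_right (e3 s) (abs_nonneg _)
            _ ≤ c := by rw [one_mul]; exact h5
      _ = 2 ^ m * c := by
        rw [Finset.sum_const, nsmul_eq_mul, card_univ, Fintype.card_finset, Fintype.card_fin]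
        push_cast
        ring
  rw [abs_mul, abs_of_pos (by positivity : (0 : ℝ) < 2 ^ m)] at e4
  exact le_of_mul_le_mul_left e4 (by positivity)

/-- the total weight -/
theorem psi_total {n G m : ℕ} (π : Fin m → Fin n → Fin G) (h : Fin m → Fin n → Fin n → Bool)
    (ψ : (Fin m → Bool) → ℝ) (hψ1 : ∑ z, |ψ z| = 1) (c : ℝ) (hc0 : 0 ≤ c)
    (hc : ∀ s : Finset (Fin m), s.Nonempty → (|∑ x : Pt n, chi π h s x| : ℤ) ≤ c) :
    2 ^ n / 2 ^ m - c ≤ ∑ x : Pt n, |ψ (fun i => qr (π i) (h i) x)| := by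
  classical
  have h1 : ∑ x : Pt n, |ψ (fun i => qr (π i) (h i) x)| =
      ∑ z : Fin m → Bool, |ψ z| * ((Pat π h z).card : ℝ) := by
    rw [← Finset.sum_fiberwise univ (fun x : Pt n => (fun i => qr (π i) (h i) x : Fin m → Bool))]
    refine Finset.sum_congr rfl fun z _ => ?_
    have h2 : (univ.filter (fun x : Pt n => (fun i => qr (π i) (h i) x : Fin m → Bool) = z)) =
        Pat π h z := by
      ext x
      simp only [Pat, mem_filter, mem_univ, true_and]
      exact funext_iff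
    rw [h2]
    rw [Finset.sum_congr rfl (g := fun _ => |ψ z|)]
    · rw [Finset.sum_const, nsmul_eq_mul, mul_comm]
    · intro x hx
      have h3 : (fun i => qr (π i) (h i) x) = z := funext fun i => (mem_filter.1 hx).2 i
      rw [h3]
  rw [h1]
  calc 2 ^ n / 2 ^ m - c = ∑ z : Fin m → Bool, |ψ z| * (2 ^ n / 2 ^ m - c) := by
        rw [← Finset.sum_mul, hψ1, one_mul]
    _ ≤ _ := Finset.sum_le_sum fun z _ =>
        mul_le_mul_of_nonneg_left (pat_card π h c hc0 hc z) (abs_nonneg _)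

open Classical in
/-- the weight of the inputs with the right answer -/
theorem psi_agree {n G m : ℕ} (π : Fin m → Fin n → Fin G) (h : Fin m → Fin n → Fin n → Bool)
    (ψ : (Fin m → Bool) → ℝ) (F : (Fin m → Bool) → Bool) (hF1 : ∀ z, F z = true → 0 ≤ ψ z)
    (hF0 : ∀ z, F z = false → ψ z ≤ 0) (acc : Pt n → Prop) (c : ℝ)
    (hall : |∑ x : Pt n, ψ (fun i => qr (π i) (h i) x)| ≤ c)
    (hacc : |∑ x ∈ univ.filter acc, ψ (fun i => qr (π i) (h i) x)| ≤ c) :
    2 * ∑ x ∈ univ.filter (fun x => acc x ↔ F (fun i => qr (π i) (h i) x) = true),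
      |ψ (fun i => qr (π i) (h i) x)| ≤ ∑ x : Pt n, |ψ (fun i => qr (π i) (h i) x)| + 3 * c := by
  have h1 : 2 * ∑ x ∈ univ.filter (fun x => acc x ↔ F (fun i => qr (π i) (h i) x) = true),
      |ψ (fun i => qr (π i) (h i) x)| = ∑ x : Pt n, |ψ (fun i => qr (π i) (h i) x)| +
        2 * ∑ x ∈ univ.filter acc, ψ (fun i => qr (π i) (h i) x) -
          ∑ x : Pt n, ψ (fun i => qr (π i) (h i) x) := by
    rw [sum_filter, sum_filter, mul_sum, mul_sum, ← sum_add_distrib, ← sum_sub_distrib]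
    refine sum_congr rfl fun x _ => ?_
    obtain ⟨z, hz⟩ : ∃ z, z = (fun i => qr (π i) (h i) x) := ⟨_, rfl⟩
    rw [← hz]
    cases hFz : F z with
    | true =>
      have h2 := abs_of_nonneg (hF1 z hFz)
      rw [h2]
      by_cases ha : acc x
      · simp [ha]; try ring
      · simp [ha]; try ring
    | false =>
      have h2 := abs_of_nonpos (hF0 z hFz)
      rw [h2]
      by_cases ha : acc x
      · simp [ha]; try ring
      · simp [ha]; try ring
  rw [h1]
  have h2 := (abs_le.1 hall).1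
  have h3 := (abs_le.1 hacc).2
  linarith

/-- weighted averaging over the inputs -/
theorem average_weight {n : ℕ} {Ω : Type} [Fintype Ω] (R : Ω → Pt n → Prop)
    [∀ ω x, Decidable (R ω x)] (ν : Pt n → ℝ) (hν : ∀ x, 0 ≤ ν x) (hν1 : 0 < ∑ x, ν x) (e : ℝ)
    (hR : ∀ ω, ∑ x ∈ univ.filter (fun x => R ω x), ν x ≤ e * ∑ x, ν x) :
    ∃ x, ((univ.filter (fun ω => R ω x)).card : ℝ) ≤ e * Fintype.card Ω := by
  by_contra hcon
  push Not at hcon
  obtain ⟨x0, hx0⟩ : ∃ x, 0 < ν x := by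
    by_contra hc
    push Not at hc
    have : ∑ x, ν x ≤ 0 := Finset.sum_nonpos fun x _ => hc x
    linarith
  have h1 : ∑ x : Pt n, ν x * (e * (Fintype.card Ω : ℝ)) <
      ∑ x : Pt n, ν x * ((univ.filter (fun ω => R ω x)).card : ℝ) := by
    apply Finset.sum_lt_sum
    · intro x _
      exact mul_le_mul_of_nonneg_left (hcon x).le (hν x)
    · exact ⟨x0, mem_univ _, mul_lt_mul_of_pos_left (hcon x0) hx0⟩
  have h2 : ∑ x : Pt n, ν x * ((univ.filter (fun ω => R ω x)).card : ℝ) =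
      ∑ ω : Ω, ∑ x ∈ univ.filter (fun x => R ω x), ν x := by
    have h3 : ∀ x : Pt n, ν x * ((univ.filter (fun ω => R ω x)).card : ℝ) =
        ∑ ω : Ω, if R ω x then ν x else 0 := by
      intro x
      rw [← Finset.sum_filter, Finset.sum_const, nsmul_eq_mul, mul_comm]
    simp_rw [h3]
    rw [Finset.sum_comm]
    refine Finset.sum_congr rfl fun ω _ => ?_
    rw [Finset.sum_filter]
  have h4 : ∑ ω : Ω, ∑ x ∈ univ.filter (fun x => R ω x), ν x ≤
      ∑ _ω : Ω, e * ∑ x, ν x := Finset.sum_le_sum fun ω _ => hR ω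
  rw [Finset.sum_const, nsmul_eq_mul, Finset.card_univ] at h4
  rw [h2, ← Finset.sum_mul] at h1
  have h5 : (∑ x : Pt n, ν x) * (e * Fintype.card Ω) = Fintype.card Ω * (e * ∑ x, ν x) := by ring
  linarith

/-- A disjunction of conjunctions of one-pass programs. -/
theorem sigma_final (k : ℕ) : ∃ D : ℕ, 0 < D ∧ ∀ n ≥ D, ∃ (t w : ℕ) (q : Fin t → Fin w → Pt n → Bool),
    t ≤ D ∧ w ≤ D ∧
    (∀ i j, ∃ (U : BP (Fin n) Bool) (l : List (Fin n)), Fintype.card U.State ≤ D * n ∧ l.Nodup ∧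
      ∀ x : Pt n, U.Comp x l (q i j x)) ∧
    ∀ (Ω : Type) [Fintype Ω] [Nonempty Ω] (P : Ω → NBP (Fin n)), (∀ ω, ReadK (P ω) k) →
      (∀ ω, Determ (P ω)) → (∀ ω, Fintype.card (P ω).State < 2 ^ (n / D)) →
        ∃ x, 2 ^ (n / D) * (2 * Nat.card {ω // Acc (P ω) x ↔ ∃ i, ∀ j, q i j x = true}) ≤
          (2 ^ (n / D) + 1) * Nat.card Ω := by
  classical
  obtain ⟨L, hL⟩ := rk_gen k
  obtain ⟨t, w, ψ, hψ1, hψ0, hψs, hψL⟩ : ∃ (t w : ℕ) (ψ : (Fin (t * w) → Bool) → ℝ),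
      (∀ z, orand z = true → 0 ≤ ψ z) ∧ (∀ z, orand z = false → ψ z ≤ 0) ∧
      ∑ z, |ψ z| = 1 ∧ ∀ s : Finset (Fin (t * w)), s.card ≤ L →
        ∑ z, ψ z * ∏ i ∈ s, ((sgn (z i) : ℤ) : ℝ) = 0 := ⟨_, _, minsky_papert L⟩
  obtain ⟨C, N, hC, hN, hmain⟩ := hL (t * w)
  obtain ⟨D, hD⟩ : ∃ D : ℕ, D = N + t + w + (4 * C + 4) := ⟨_, rfl⟩
  refine ⟨D, by omega, fun n hn => ?_⟩
  have hn0 : 1 ≤ n := by omega
  obtain ⟨G, π, h, hπ, hall, hcorr⟩ := hmain n (by omega)
  have hDN : 2 ^ (n / D) ≤ 2 ^ (n / N) :=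
    Nat.pow_le_pow_right (by norm_num) (Nat.div_le_div_left (by omega) hN)
  refine ⟨t, w, fun i j => qr (π (finProdFinEquiv (i, j))) (h (finProdFinEquiv (i, j))), by omega,
    by omega, fun i j => ?_, ?_⟩
  · obtain ⟨U, l, hU1, hl, hU2⟩ := qr_program (π (finProdFinEquiv (i, j))) (h (finProdFinEquiv (i, j)))
    refine ⟨U, l, hU1.trans ?_, hl, hU2⟩
    calc 4 * ∑ g, 2 ^ (univ.filter (fun v => π (finProdFinEquiv (i, j)) v = g)).card + 4 ≤
        4 * (C * n) + 4 := by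
          have := Nat.mul_le_mul_left 4 (hπ (finProdFinEquiv (i, j)))
          omega
      _ ≤ (4 * C + 4) * n := by nlinarith
      _ ≤ D * n := Nat.mul_le_mul_right _ (by omega)
  · intro Ω _ _ P hPk hPD hP
    obtain ⟨X, hX⟩ : ∃ X : ℝ, X = 2 ^ (n / N) := ⟨_, rfl⟩
    have hX1 : 1 ≤ X := by rw [hX]; exact one_le_pow₀ (by norm_num)
    obtain ⟨V, hV⟩ : ∃ V : ℝ, V = 2 ^ n / 2 ^ (t * w) := ⟨_, rfl⟩
    have hV0 : 0 < V := by rw [hV]; positivity
    rw [← hX, ← hV] at hall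
    have hdiv : ∀ a : ℝ, X * a ≤ V / 16 → a ≤ V / 16 / X := fun a ha => by
      rw [le_div_iff₀ (by linarith)]
      linarith
    have hc0 : 0 ≤ V / 16 / X := by positivity
    have hXc : X * (V / 16 / X) = V / 16 := by field_simp
    have hcV : V / 16 / X ≤ V / 16 := div_le_self (by positivity) hX1
    have hall' : ∀ s : Finset (Fin (t * w)), s.Nonempty →
        (|∑ x : Pt n, chi π h s x| : ℤ) ≤ V / 16 / X := fun s hs => hdiv _ (hall s hs)
    have hW := psi_total π h ψ hψs _ hc0 hall'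
    rw [← hV] at hW
    have hAll := psi_sum π h ψ hψs hψL univ _ hc0 (fun s hs => hall' s (card_pos.1 (by omega)))
    have hAcc : ∀ ω, |∑ x ∈ univ.filter (fun x => Acc (P ω) x),
        ψ (fun i => qr (π i) (h i) x)| ≤ V / 16 / X := by
      intro ω
      refine psi_sum π h ψ hψs hψL _ _ hc0 (fun s hs => hdiv _ ?_)
      have h1 := hcorr (P ω) (hPk ω) (hPD ω) ((hP ω).trans_le hDN) s hs
      rw [← hX, ← hV] at h1
      exact h1
    obtain ⟨W, hWd⟩ : ∃ W : ℝ, W = ∑ x : Pt n, |ψ (fun i => qr (π i) (h i) x)| := ⟨_, rfl⟩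
    rw [← hWd] at hW
    have hW0 : 0 < W := by linarith
    obtain ⟨x, hx⟩ := average_weight (n := n) (fun ω x => Acc (P ω) x ↔
      orand (t := t) (w := w) (fun i => qr (π i) (h i) x) = true)
      (fun x => |ψ (fun i => qr (π i) (h i) x)|) (fun x => abs_nonneg _) (hWd ▸ hW0)
      ((X + 1) / (2 * X)) (by
        intro ω
        have h1 := psi_agree π h ψ orand hψ1 hψ0 (fun x => Acc (P ω) x) _ hAll (hAcc ω)
        rw [← hWd] at h1 ⊢
        rw [div_mul_eq_mul_div, le_div_iff₀ (by linarith)]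
        have h2 := mul_le_mul_of_nonneg_left h1 (by linarith : (0 : ℝ) ≤ X)
        have h3 : X * (W + 3 * (V / 16 / X)) = X * W + 3 * (X * (V / 16 / X)) := by ring
        rw [h3, hXc] at h2
        have h4 : 3 * (V / 16) ≤ W := by linarith
        calc _ = X * (2 * ∑ x ∈ univ.filter (fun x => Acc (P ω) x ↔
              orand (t := t) (w := w) (fun i => qr (π i) (h i) x) = true),
                |ψ (fun i => qr (π i) (h i) x)|) := by ring
          _ ≤ _ := h2
          _ ≤ (X + 1) * W := by linarith)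
    refine ⟨x, ?_⟩
    have hor : ∀ x : Pt n, (orand (t := t) (w := w) (fun i => qr (π i) (h i) x) = true) ↔
        ∃ i : Fin t, ∀ j : Fin w,
          qr (π (finProdFinEquiv (i, j))) (h (finProdFinEquiv (i, j))) x = true := by
      intro x
      rw [orand, decide_eq_true_eq]
    simp only [hor] at hx
    rw [Nat.card_eq_fintype_card, Fintype.card_subtype, Nat.card_eq_fintype_card]
    rw [div_mul_eq_mul_div, le_div_iff₀ (by linarith)] at hx
    obtain ⟨Z, hZ⟩ : ∃ Z : ℝ, Z = 2 ^ (n / D) := ⟨_, rfl⟩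
    have hZ1 : 1 ≤ Z := by rw [hZ]; exact one_le_pow₀ (by norm_num)
    have hZX : Z ≤ X := by rw [hZ, hX]; exact_mod_cast hDN
    obtain ⟨T, hT⟩ : ∃ T : ℝ, T = ((univ.filter (fun ω => Acc (P ω) x ↔
      ∃ i : Fin t, ∀ j : Fin w,
        qr (π (finProdFinEquiv (i, j))) (h (finProdFinEquiv (i, j))) x = true)).card : ℝ) :=
      ⟨_, rfl⟩
    obtain ⟨O, hO⟩ : ∃ O : ℝ, O = (Fintype.card Ω : ℝ) := ⟨_, rfl⟩
    rw [← hT, ← hO] at hx
    have hO0 : 0 ≤ O := by rw [hO]; positivity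
    have hgoal : Z * (2 * T) ≤ (Z + 1) * O := by
      have h1 : X * (Z * (2 * T)) ≤ X * ((Z + 1) * O) := by
        have h2 : X * (Z * (2 * T)) = Z * (T * (2 * X)) := by ring
        have h3 : Z * (T * (2 * X)) ≤ Z * ((X + 1) * O) := mul_le_mul_of_nonneg_left hx (by linarith)
        have h4 : Z * ((X + 1) * O) ≤ X * ((Z + 1) * O) := by
          have h5 : Z * ((X + 1) * O) = (Z * X) * O + Z * O := by ring
          have h6 : X * ((Z + 1) * O) = (Z * X) * O + X * O := by ring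
          have h7 : Z * O ≤ X * O := mul_le_mul_of_nonneg_right hZX hO0
          linarith
        linarith
      exact le_of_mul_le_mul_left h1 (by linarith)
    rw [hZ, hT, hO] at hgoal
    exact_mod_cast hgoal

end Pool.Agent.H554R2.RK
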